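import Mathlib

set_option autoImplicit false
open MeasureTheory Real Set

namespace Pool.Agent.Helper53.SM

/-- Global inverse of a uniformly expanding differentiable map of the line. -/
lemma exists_inverse_pos {G G' : ℝ → ℝ} {K : ℝ} (hK : 0 < K) (hd : ∀ x, HasDerivAt G (G' x) x)
    (hb : ∀ x, K ≤ G' x) :
    ∃ τ : ℝ → ℝ, (∀ x, G (τ x) = x) ∧ (∀ t, τ (G t) = t) ∧
      (∀ x, HasDerivAt τ (G' (τ x))⁻¹ x) ∧ (∀ s t, K * |s - t| ≤ |G s - G t|) := by
  have hdiff : Differentiable ℝ G := fun x => (hd x).differentiableAt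
  have hmono : ∀ s t, s ≤ t → K * (t - s) ≤ G t - G s := by
    intro s t hst
    have := (convex_univ (𝕜 := ℝ) (E := ℝ)).mul_sub_le_image_sub_of_le_deriv (f := G)
      hdiff.continuous.continuousOn hdiff.differentiableOn (C := K)
      (by intro x _; rw [(hd x).deriv]; exact hb x) s (mem_univ _) t (mem_univ _) hst
    linarith
  have hsm : StrictMono G := by
    intro s t hst
    have := hmono s t hst.le
    have : 0 < K * (t - s) := mul_pos hK (by linarith)
    linarith
  have htop : Filter.Tendsto G Filter.atTop Filter.atTop := by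
    have h1 : Filter.Tendsto (fun x : ℝ => K * x + G 0) Filter.atTop Filter.atTop :=
      Filter.tendsto_atTop_add_const_right _ _ (Filter.tendsto_id.const_mul_atTop hK)
    refine Filter.tendsto_atTop_mono' _ ?_ h1
    filter_upwards [Filter.eventually_ge_atTop 0] with x hx
    have := hmono 0 x hx
    linarith
  have hbot : Filter.Tendsto G Filter.atBot Filter.atBot := by
    have h1 : Filter.Tendsto (fun x : ℝ => K * x + G 0) Filter.atBot Filter.atBot :=
      Filter.tendsto_atBot_add_const_right _ _ (Filter.tendsto_id.const_mul_atBot hK)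
    refine Filter.tendsto_atBot_mono' _ ?_ h1
    filter_upwards [Filter.eventually_le_atBot 0] with x hx
    have := hmono x 0 hx
    linarith
  have hsurj : Function.Surjective G := hdiff.continuous.surjective htop hbot
  let τ : ℝ → ℝ := Function.surjInv hsurj
  have h1 : ∀ x, G (τ x) = x := Function.surjInv_eq hsurj
  have h2 : ∀ t, τ (G t) = t := fun t => hsm.injective (h1 (G t))
  have h4 : ∀ s t, K * |s - t| ≤ |G s - G t| := by
    intro s t
    rcases le_total s t with h | h
    · have := hmono s t h
      rw [abs_sub_comm s t, abs_of_nonneg (by linarith : (0:ℝ) ≤ t - s), abs_sub_comm]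
      exact this.trans (le_abs_self _)
    · have := hmono t s h
      rw [abs_of_nonneg (by linarith : (0:ℝ) ≤ s - t)]
      exact this.trans (le_abs_self _)
  refine ⟨τ, h1, h2, ?_, h4⟩
  intro x
  have hcont : Continuous τ := by
    refine LipschitzWith.continuous (K := (1 / K).toNNReal) (LipschitzWith.of_dist_le_mul ?_)
    intro x y
    rw [Real.dist_eq, Real.dist_eq, Real.coe_toNNReal _ (by positivity)]
    have := h4 (τ x) (τ y)
    rw [h1, h1] at this
    rw [div_mul_eq_mul_div, one_mul, le_div_iff₀ hK]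
    linarith
  exact HasDerivAt.of_local_left_inverse hcont.continuousAt (hd (τ x)) (by
    have := hb (τ x); linarith) (Filter.Eventually.of_forall h1)

lemma exists_inverse {G G' : ℝ → ℝ} {K : ℝ} (hK : 0 < K) (hd : ∀ x, HasDerivAt G (G' x) x)
    (hb : (∀ x, K ≤ G' x) ∨ (∀ x, G' x ≤ -K)) :
    ∃ τ : ℝ → ℝ, (∀ x, G (τ x) = x) ∧ (∀ t, τ (G t) = t) ∧
      (∀ x, HasDerivAt τ (G' (τ x))⁻¹ x) ∧ (∀ s t, K * |s - t| ≤ |G s - G t|) := by
  rcases hb with hb | hb
  · exact exists_inverse_pos hK hd hb
  · obtain ⟨τ, h1, h2, h3, h4⟩ := exists_inverse_pos (G := fun x => - G x) (G' := fun x => - G' x)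
      hK (fun x => (hd x).neg) (fun x => by have := hb x; linarith)
    refine ⟨fun x => τ (-x), ?_, ?_, ?_, ?_⟩
    · intro x
      have := h1 (-x)
      linarith
    · intro t
      exact h2 t
    · intro x
      have h5 := (h3 (-x)).comp x (hasDerivAt_neg x)
      have h6 : (-G' (τ (-x)))⁻¹ * -1 = (G' (τ (-x)))⁻¹ := by
        rw [inv_neg]; ring
      rw [h6] at h5
      exact h5
    · intro s t
      have := h4 s t
      rwa [show -G s - -G t = -(G s - G t) by ring, abs_neg] at this

end Pool.Agent.Helper53.SM
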