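import Mathlib
import Pool.Agent.Helper53.SM.Inverse

set_option autoImplicit false
open MeasureTheory Real Set

namespace Pool.Agent.Helper53.SM

/-- admissible curves: graphs of differentiable functions with small slope, mapping `[0,1]` to `[0,1]`. -/
structure Curve (ψ : ℝ → ℝ) : Prop where
  diff : Differentiable ℝ ψ
  der : ∀ x, |deriv ψ x| ≤ 1 / 2
  maps : ∀ x ∈ Icc (0:ℝ) 1, ψ x ∈ Icc (0:ℝ) 1

/-- A uniformly expanding branch. -/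
structure Branch (B K l r : ℝ) (Φ Φ' : ℝ → ℝ) : Prop where
  hl : 0 ≤ l
  hlr : l ≤ r
  hr : r ≤ 1
  hB : 0 ≤ B
  hK : 1 ≤ K
  der : ∀ x, HasDerivAt Φ (Φ' x) x
  big : (∀ x, K + 1 / 2 ≤ Φ' x) ∨ (∀ x, Φ' x ≤ -(K + 1 / 2))
  lip : ∀ x y, |Φ' x - Φ' y| ≤ B * |x - y|

/-- data attached to a branch and a curve -/
structure Inv (B K l r : ℝ) (Φ Φ' ψ τ : ℝ → ℝ) : Prop where
  inv1 : ∀ x, Φ (τ x) - ψ (τ x) = x
  inv2 : ∀ t, τ (Φ t - ψ t) = t
  der : ∀ x, HasDerivAt τ (Φ' (τ x) - deriv ψ (τ x))⁻¹ x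
  exp : ∀ s t, K * |s - t| ≤ |(Φ s - ψ s) - (Φ t - ψ t)|

lemma exists_inv {B K l r : ℝ} {Φ Φ' ψ : ℝ → ℝ} (hb : Branch B K l r Φ Φ') (hψ : Curve ψ) :
    ∃ τ, Inv B K l r Φ Φ' ψ τ := by
  obtain ⟨τ, h1, h2, h3, h4⟩ := exists_inverse (G := fun x => Φ x - ψ x)
    (G' := fun x => Φ' x - deriv ψ x) (K := K) (by linarith [hb.hK])
    (fun x => (hb.der x).sub (hψ.diff x).hasDerivAt)
    (by
      rcases hb.big with h | h
      · left; intro x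
        have := h x; have h5 := abs_le.1 (hψ.der x); show K ≤ Φ' x - deriv ψ x
        linarith [h5.1, h5.2]
      · right; intro x
        have := h x; have h5 := abs_le.1 (hψ.der x); show Φ' x - deriv ψ x ≤ -K
        linarith [h5.1, h5.2])
  exact ⟨τ, h1, h2, h3, h4⟩

section
variable {B K l r : ℝ} {Φ Φ' ψ τ : ℝ → ℝ}

lemma Inv.lip (hb : Branch B K l r Φ Φ') (h : Inv B K l r Φ Φ' ψ τ) (x y : ℝ) :
    |τ x - τ y| ≤ |x - y| / K := by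
  have := h.exp (τ x) (τ y)
  rw [h.inv1, h.inv1] at this
  rw [le_div_iff₀ (by linarith [hb.hK])]
  linarith

lemma Inv.G'_big (hb : Branch B K l r Φ Φ') (hψ : Curve ψ) (t : ℝ) :
    K ≤ |Φ' t - deriv ψ t| := by
  have h5 := abs_le.1 (hψ.der t)
  rcases hb.big with h | h
  · have := h t
    rw [le_abs]; left; linarith [h5.1, h5.2]
  · have := h t
    rw [le_abs]; right; linarith [h5.1, h5.2]

lemma Inv.deriv_eq (h : Inv B K l r Φ Φ' ψ τ) (x : ℝ) :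
    deriv τ x = (Φ' (τ x) - deriv ψ (τ x))⁻¹ := (h.der x).deriv

lemma Inv.w_le (hb : Branch B K l r Φ Φ') (hψ : Curve ψ) (h : Inv B K l r Φ Φ' ψ τ) (x : ℝ) :
    |deriv τ x| ≤ 1 / K := by
  rw [h.deriv_eq, abs_inv, ← one_div]
  exact one_div_le_one_div_of_le (by linarith [hb.hK]) (Inv.G'_big hb hψ _)

lemma Inv.w_pos (hb : Branch B K l r Φ Φ') (hψ : Curve ψ) (h : Inv B K l r Φ Φ' ψ τ) (x : ℝ) :
    0 < |deriv τ x| := by
  rw [h.deriv_eq, abs_inv]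
  have := Inv.G'_big hb hψ (τ x)
  have : 0 < |Φ' (τ x) - deriv ψ (τ x)| := by linarith [hb.hK]
  positivity

/-- distortion comparison of inverse derivatives of two curves at points close to each other -/
lemma inv_compare {ψ₂ τ₂ : ℝ → ℝ} (hb : Branch B K l r Φ Φ') (hψ : Curve ψ) (hψ₂ : Curve ψ₂)
    (h : Inv B K l r Φ Φ' ψ τ) (h₂ : Inv B K l r Φ Φ' ψ₂ τ₂) (x y : ℝ)
    (hxy : |τ x - τ₂ y| ≤ 1 / K) :
    |(|deriv τ x| - |deriv τ₂ y|)| ≤ ((B / K + 1) / K) * |deriv τ₂ y| := by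
  have hK : 0 < K := by linarith [hb.hK]
  have g1 := Inv.G'_big hb hψ (τ x)
  have g2 := Inv.G'_big hb hψ₂ (τ₂ y)
  rw [h.deriv_eq, h₂.deriv_eq, abs_inv, abs_inv]
  set p := |Φ' (τ x) - deriv ψ (τ x)| with hp
  set q := |Φ' (τ₂ y) - deriv ψ₂ (τ₂ y)| with hq
  have hp0 : 0 < p := by linarith
  have hq0 : 0 < q := by linarith
  have hpq : |p - q| ≤ B / K + 1 := by
    have e1 : |p - q| ≤ |(Φ' (τ x) - deriv ψ (τ x)) - (Φ' (τ₂ y) - deriv ψ₂ (τ₂ y))| :=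
      abs_abs_sub_abs_le_abs_sub _ _
    have e2 : |(Φ' (τ x) - deriv ψ (τ x)) - (Φ' (τ₂ y) - deriv ψ₂ (τ₂ y))| ≤
        |Φ' (τ x) - Φ' (τ₂ y)| + |deriv ψ (τ x)| + |deriv ψ₂ (τ₂ y)| := by
      have : (Φ' (τ x) - deriv ψ (τ x)) - (Φ' (τ₂ y) - deriv ψ₂ (τ₂ y)) =
        (Φ' (τ x) - Φ' (τ₂ y)) - deriv ψ (τ x) + deriv ψ₂ (τ₂ y) := by ring
      rw [this]
      refine (abs_add_le _ _).trans ?_
      gcongr
      exact abs_sub _ _
    have e3 := hb.lip (τ x) (τ₂ y)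
    have e4 : B * |τ x - τ₂ y| ≤ B / K := by
      have := mul_le_mul_of_nonneg_left hxy hb.hB
      calc _ ≤ _ := this
        _ = B / K := by ring
    linarith [hψ.der (τ x), hψ₂.der (τ₂ y)]
  have e5 : p⁻¹ - q⁻¹ = (q - p) / (p * q) := by
    field_simp
  rw [e5, abs_div, abs_sub_comm, abs_of_pos (mul_pos hp0 hq0)]
  have e6 : (B / K + 1) / K * q⁻¹ = (B / K + 1) / (K * q) := by
    field_simp
  rw [e6]
  have : 0 ≤ B / K + 1 := by have := hb.hB; positivity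
  gcongr

end

end Pool.Agent.Helper53.SM
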