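import Mathlib
import Pool.Agent.Helper53.SM.Branch

set_option autoImplicit false
open MeasureTheory Real Set

namespace Pool.Agent.Helper53.SM

/-- first integer of the branch -/
noncomputable def bk0 (Φ : ℝ → ℝ) (l r : ℝ) : ℤ := ⌈min (Φ l) (Φ r)⌉
/-- number of full unit intervals -/
noncomputable def bN (Φ : ℝ → ℝ) (l r : ℝ) : ℕ := (⌊max (Φ l) (Φ r)⌋ - 1 - bk0 Φ l r).toNat

section
variable {B K l r : ℝ} {Φ Φ' ψ τ : ℝ → ℝ}

lemma Branch.continuous (hb : Branch B K l r Φ Φ') : Continuous Φ :=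
  continuous_iff_continuousAt.2 fun x => (hb.der x).continuousAt

lemma Inv.continuous (h : Inv B K l r Φ Φ' ψ τ) : Continuous τ :=
  continuous_iff_continuousAt.2 fun x => (h.der x).continuousAt

lemma Branch.mem_range (hb : Branch B K l r Φ Φ') {t : ℝ} (ht : t ∈ Icc l r) :
    Φ t ∈ Icc (min (Φ l) (Φ r)) (max (Φ l) (Φ r)) := by
  have hdiff : Differentiable ℝ Φ := fun x => (hb.der x).differentiableAt
  rcases hb.big with h | h
  · have hm : Monotone Φ := monotone_of_deriv_nonneg hdiff (by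
      intro x; rw [(hb.der x).deriv]; have := h x; linarith [hb.hK])
    exact ⟨(min_le_left _ _).trans (hm ht.1), (hm ht.2).trans (le_max_right _ _)⟩
  · have hm : Antitone Φ := antitone_of_deriv_nonpos hdiff (by
      intro x; rw [(hb.der x).deriv]; have := h x; linarith [hb.hK])
    exact ⟨(min_le_right _ _).trans (hm ht.2), (hm ht.1).trans (le_max_left _ _)⟩

lemma Inv.mem_of_range (hb : Branch B K l r Φ Φ') (hψ : Curve ψ) (h : Inv B K l r Φ Φ' ψ τ)
    {x : ℝ} (h1 : min (Φ l) (Φ r) ≤ x) (h2 : x ≤ max (Φ l) (Φ r) - 1) : τ x ∈ Icc l r := by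
  have hl := hψ.maps l ⟨hb.hl, hb.hlr.trans hb.hr⟩
  have hr := hψ.maps r ⟨hb.hl.trans hb.hlr, hb.hr⟩
  have hc : ContinuousOn (fun t => Φ t - ψ t) (uIcc l r) :=
    (hb.continuous.sub hψ.diff.continuous).continuousOn
  have hx : x ∈ uIcc (Φ l - ψ l) (Φ r - ψ r) := by
    rw [mem_uIcc]
    rcases le_total (Φ l) (Φ r) with hh | hh
    · left
      rw [min_eq_left hh] at h1
      rw [max_eq_right hh] at h2
      exact ⟨by linarith [hl.1], by linarith [hr.2]⟩
    · right
      rw [min_eq_right hh] at h1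
      rw [max_eq_left hh] at h2
      exact ⟨by linarith [hr.1], by linarith [hl.2]⟩
  obtain ⟨t, ht, rfl⟩ := intermediate_value_uIcc hc hx
  simp only [h.inv2]
  rwa [uIcc_of_le hb.hlr] at ht

lemma Inv.mem_piece (hb : Branch B K l r Φ Φ') (hψ : Curve ψ) (h : Inv B K l r Φ Φ' ψ τ)
    {i : ℕ} (hi : i < bN Φ l r) {x : ℝ} (hx : x ∈ Icc (0:ℝ) 1) :
    τ (x + (bk0 Φ l r + i : ℝ)) ∈ Icc l r := by
  have hN : (bN Φ l r : ℤ) = ⌊max (Φ l) (Φ r)⌋ - 1 - bk0 Φ l r := by
    unfold bN at hi ⊢
    rw [Int.toNat_of_nonneg]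
    by_contra hh
    push Not at hh
    rw [Int.toNat_of_nonpos hh.le] at hi
    omega
  have hN' : (bN Φ l r : ℝ) = (⌊max (Φ l) (Φ r)⌋ : ℝ) - 1 - bk0 Φ l r := by exact_mod_cast hN
  have hi' : (i : ℝ) + 1 ≤ bN Φ l r := by exact_mod_cast hi
  have e1 : min (Φ l) (Φ r) ≤ bk0 Φ l r := Int.le_ceil _
  have e2 : (⌊max (Φ l) (Φ r)⌋ : ℝ) ≤ max (Φ l) (Φ r) := Int.floor_le _
  apply h.mem_of_range hb hψ
  · have : (0:ℝ) ≤ i := by positivity
    linarith [hx.1]
  · linarith [hx.2]

/-- The image of `[l,r]` under `Φ - ψ`, up to a set of measure at most `4`, is the union of the full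
unit intervals. -/
lemma Inv.integral_decomp (hb : Branch B K l r Φ Φ') (hψ : Curve ψ) (h : Inv B K l r Φ Φ' ψ τ)
    {u : ℝ → ℝ} (hu : Measurable u) (hu1 : ∀ t, |u t| ≤ 1) :
    ∃ R : ℝ, (∫ t in l..r, u t) = (∑ i ∈ Finset.range (bN Φ l r),
      ∫ x in (0:ℝ)..1, |deriv τ (x + (bk0 Φ l r + i : ℝ))| * u (τ (x + (bk0 Φ l r + i : ℝ)))) + R ∧
      |R| ≤ 4 / K ∧ ((∀ t, 0 ≤ u t) → 0 ≤ R) := by
  have hK : 0 < K := by linarith [hb.hK]
  set G : ℝ → ℝ := fun t => Φ t - ψ t with hG
  have hGc : Continuous G := hb.continuous.sub hψ.diff.continuous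
  set E : Set ℝ := G '' Icc l r with hE
  have hEm : MeasurableSet E := (isCompact_Icc.image hGc).isClosed.measurableSet
  have hτE : τ '' E = Icc l r := by
    rw [hE, image_image]
    have : (fun x => τ (G x)) = id := by funext t; exact h.inv2 t
    rw [this, image_id]
  have hinj : InjOn τ E := by
    intro x _ y _ hxy
    have h1 := h.inv1 x
    have h2 := h.inv1 y
    rw [hxy, h2] at h1
    exact h1.symm
  set v : ℝ → ℝ := fun x => |deriv τ x| * u (τ x) with hv
  have hvm : Measurable v := (measurable_deriv τ).abs.mul (hu.comp h.continuous.measurable)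
  have hvb : ∀ x, |v x| ≤ 1 / K := by
    intro x
    rw [hv]
    simp only [abs_mul, abs_abs]
    calc _ ≤ (1 / K) * 1 := mul_le_mul (h.w_le hb hψ x) (hu1 _) (abs_nonneg _) (by positivity)
      _ = 1 / K := mul_one _
  have hcv : ∫ t in l..r, u t = ∫ x in E, v x := by
    rw [intervalIntegral.integral_of_le hb.hlr, ← integral_Icc_eq_integral_Ioc, ← hτE]
    rw [integral_image_eq_integral_abs_deriv_smul hEm
      (fun x _ => (h.der x).hasDerivWithinAt) hinj]
    apply integral_congr_ae
    filter_upwards with x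
    rw [hv]; simp only [smul_eq_mul]
    rw [h.deriv_eq]
  -- the full intervals
  set k0 := bk0 Φ l r with hk0
  set N := bN Φ l r with hNdef
  set J : Set ℝ := Ico (k0 : ℝ) (k0 + N) with hJ
  have hEsub : E ⊆ Icc (min (Φ l) (Φ r) - 1) (max (Φ l) (Φ r)) := by
    rintro x ⟨t, ht, rfl⟩
    have h1 := hb.mem_range ht
    have h2 := hψ.maps t ⟨hb.hl.trans ht.1, ht.2.trans hb.hr⟩
    exact ⟨by simp only [hG]; linarith [h1.1, h2.2], by simp only [hG]; linarith [h1.2, h2.1]⟩
  have hJE : J ⊆ E := by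
    intro x hx
    have hNpos : 0 < N := by
      rcases Nat.eq_zero_or_pos N with h0 | h0
      · rw [hJ, h0] at hx
        simp at hx
      · exact h0
    have hN : (N : ℤ) = ⌊max (Φ l) (Φ r)⌋ - 1 - k0 := by
      rw [hNdef] at hNpos ⊢
      unfold bN at hNpos ⊢
      rw [Int.toNat_of_nonneg]
      by_contra hh
      push Not at hh
      rw [Int.toNat_of_nonpos hh.le] at hNpos
      omega
    have hN' : (N : ℝ) = (⌊max (Φ l) (Φ r)⌋ : ℝ) - 1 - k0 := by exact_mod_cast hN
    have e1 : min (Φ l) (Φ r) ≤ k0 := Int.le_ceil _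
    have e2 : (⌊max (Φ l) (Φ r)⌋ : ℝ) ≤ max (Φ l) (Φ r) := Int.floor_le _
    have := h.mem_of_range hb hψ (x := x) (by linarith [hx.1]) (by linarith [hx.2])
    exact ⟨τ x, this, h.inv1 x⟩
  have hvolE : volume E < ⊤ := lt_of_le_of_lt (measure_mono hEsub) (by simp)
  have hint : IntegrableOn v E := by
    refine Measure.integrableOn_of_bounded (M := 1 / K) hvolE.ne hvm.aestronglyMeasurable ?_
    exact Filter.Eventually.of_forall (fun x => by rw [Real.norm_eq_abs]; exact hvb x)
  have hsplit : ∫ x in E, v x = (∫ x in J, v x) + ∫ x in E \ J, v x := by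
    have := integral_inter_add_sdiff (μ := volume) (f := v) (s := E) (t := J) measurableSet_Ico hint
    rw [inter_eq_self_of_subset_right hJE] at this
    exact this.symm
  have hJsum : ∫ x in J, v x = ∑ i ∈ Finset.range N,
      ∫ x in (0:ℝ)..1, v (x + (k0 + i : ℝ)) := by
    have hle : (k0 : ℝ) ≤ k0 + N := by
      have : (0:ℝ) ≤ N := by positivity
      linarith
    rw [hJ, integral_Ico_eq_integral_Ioc, ← intervalIntegral.integral_of_le hle]
    have hvi : ∀ a b : ℝ, IntervalIntegrable v volume a b := by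
      intro a b
      refine (intervalIntegrable_const (c := 1 / K)).mono_fun hvm.aestronglyMeasurable ?_
      refine Filter.Eventually.of_forall (fun x => ?_)
      simp only [Real.norm_eq_abs]
      rw [abs_of_nonneg (by positivity : (0:ℝ) ≤ 1 / K)]
      exact hvb x
    have := intervalIntegral.sum_integral_adjacent_intervals (f := v) (μ := volume)
      (a := fun i : ℕ => (k0 : ℝ) + i) (n := N) (fun k _ => hvi _ _)
    simp only [Nat.cast_zero, add_zero] at this
    rw [← this]
    apply Finset.sum_congr rfl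
    intro i _
    rw [intervalIntegral.integral_comp_add_right (fun x => v x)]
    congr 1
    · ring
    · push_cast; ring
  have hrest : |∫ x in E \ J, v x| ≤ 4 / K := by
    have hsub : E \ J ⊆ Ico (min (Φ l) (Φ r) - 1) k0 ∪ Icc (k0 + N : ℝ) (max (Φ l) (Φ r)) := by
      intro x hx
      have h1 := hEsub hx.1
      have h2 := hx.2
      rw [hJ, mem_Ico, not_and_or] at h2
      rcases h2 with h2 | h2
      · left; exact ⟨h1.1, by linarith⟩
      · right; exact ⟨by linarith, h1.2⟩
    have hvol : volume (E \ J) ≤ ENNReal.ofReal 4 := by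
      calc volume (E \ J) ≤ volume (Ico (min (Φ l) (Φ r) - 1) (k0:ℝ)) +
            volume (Icc (k0 + N : ℝ) (max (Φ l) (Φ r))) :=
            (measure_mono hsub).trans (measure_union_le _ _)
        _ ≤ ENNReal.ofReal 2 + ENNReal.ofReal 2 := by
            rw [Real.volume_Ico, Real.volume_Icc]
            gcongr
            · have := Int.ceil_lt_add_one (min (Φ l) (Φ r))
              rw [hk0]; unfold bk0; linarith
            · have e3 := Int.lt_floor_add_one (max (Φ l) (Φ r))
              have e4 : (⌊max (Φ l) (Φ r)⌋ : ℤ) - 1 - k0 ≤ N := Int.self_le_toNat _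
              have e5 : (⌊max (Φ l) (Φ r)⌋ : ℝ) - 1 - k0 ≤ N := by exact_mod_cast e4
              linarith
        _ = ENNReal.ofReal 4 := by
            rw [← ENNReal.ofReal_add (by norm_num) (by norm_num)]; norm_num
    have h1 := norm_setIntegral_le_of_norm_le_const (μ := volume) (f := v) (s := E \ J) (C := 1 / K)
      (lt_of_le_of_lt hvol (by simp)) (fun x _ => by rw [Real.norm_eq_abs]; exact hvb x)
    rw [Real.norm_eq_abs] at h1
    refine h1.trans ?_
    have h2 : (volume (E \ J)).toReal ≤ 4 := by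
      have := ENNReal.toReal_mono (by simp) hvol
      rwa [ENNReal.toReal_ofReal (by norm_num)] at this
    unfold Measure.real
    calc 1 / K * (volume (E \ J)).toReal ≤ 1 / K * 4 := by gcongr
      _ = 4 / K := by ring
  refine ⟨∫ x in E \ J, v x, ?_, hrest, ?_⟩
  · rw [hcv, hsplit, hJsum]
  · intro h0
    apply integral_nonneg
    intro x
    exact mul_nonneg (abs_nonneg _) (h0 _)

end

end Pool.Agent.Helper53.SM
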