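import Mathlib
import Pool.Agent.Helper53.SM.Decomp

set_option autoImplicit false
open MeasureTheory Real Set

namespace Pool.Agent.Helper53.SM

/-- distortion constant -/
noncomputable def dist0 (B K : ℝ) : ℝ := (B / K + 1) / K

/-- weight of the `i`-th piece -/
noncomputable def wt (Φ τ : ℝ → ℝ) (l r : ℝ) (i : ℕ) : ℝ :=
  ∫ x in (0:ℝ)..1, |deriv τ (x + (bk0 Φ l r + i : ℝ))|

/-- `i`-th image curve -/
noncomputable def piece (Φ τ : ℝ → ℝ) (l r : ℝ) (i : ℕ) : ℝ → ℝ :=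
  fun x => τ (x + (bk0 Φ l r + i : ℝ))

section
variable {B K l r : ℝ} {Φ Φ' ψ τ : ℝ → ℝ}

lemma Inv.w_int (hb : Branch B K l r Φ Φ') (hψ : Curve ψ) (h : Inv B K l r Φ Φ' ψ τ) (c p q : ℝ) :
    IntervalIntegrable (fun x => |deriv τ (x + c)|) volume p q := by
  have hK : 0 < K := by linarith [hb.hK]
  refine (intervalIntegrable_const (c := 1 / K)).mono_fun ?_ ?_
  · exact ((measurable_deriv τ).comp (measurable_id.add_const c)).abs.aestronglyMeasurable
  · refine Filter.Eventually.of_forall (fun x => ?_)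
    simp only [Real.norm_eq_abs, abs_abs]
    rw [abs_of_nonneg (by positivity : (0:ℝ) ≤ 1 / K)]
    exact h.w_le hb hψ _

lemma Inv.wt_nonneg (i : ℕ) : 0 ≤ wt Φ τ l r i := by
  unfold wt
  apply intervalIntegral.integral_nonneg (by norm_num)
  intro x _
  exact abs_nonneg _

lemma Inv.piece_curve (hb : Branch B K l r Φ Φ') (hψ : Curve ψ) (h : Inv B K l r Φ Φ' ψ τ)
    (hK2 : 2 ≤ K) {i : ℕ} (hi : i < bN Φ l r) : Curve (piece Φ τ l r i) := by
  refine ⟨?_, ?_, ?_⟩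
  · intro x
    unfold piece
    have h1 := (h.der (x + (bk0 Φ l r + i : ℝ))).comp_add_const x (bk0 Φ l r + i : ℝ)
    exact h1.differentiableAt
  · intro x
    unfold piece
    rw [deriv_comp_add_const]
    refine (h.w_le hb hψ _).trans ?_
    rw [div_le_div_iff₀ (by linarith) (by norm_num)]
    linarith
  · intro x hx
    have := h.mem_piece hb hψ hi hx
    exact ⟨hb.hl.trans this.1, this.2.trans hb.hr⟩

lemma Inv.piece_lip (hb : Branch B K l r Φ Φ') (h : Inv B K l r Φ Φ' ψ τ) (i : ℕ) (x y : ℝ) :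
    |piece Φ τ l r i x - piece Φ τ l r i y| ≤ |x - y| / K := by
  unfold piece
  refine (h.lip hb _ _).trans ?_
  rw [show x + (bk0 Φ l r + i : ℝ) - (y + (bk0 Φ l r + i : ℝ)) = x - y by ring]

lemma wt_compare {ψ₂ τ₂ : ℝ → ℝ} (hb : Branch B K l r Φ Φ') (hψ : Curve ψ) (hψ₂ : Curve ψ₂)
    (h : Inv B K l r Φ Φ' ψ τ) (h₂ : Inv B K l r Φ Φ' ψ₂ τ₂) {d : ℝ} (hd1 : d ≤ 1)
    (hd : ∀ x ∈ Icc (0:ℝ) 1, |ψ x - ψ₂ x| ≤ d)
    {i : ℕ} (hi : i < bN Φ l r) {x : ℝ} (hx : x ∈ Icc (0:ℝ) 1) :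
    |piece Φ τ l r i x - piece Φ τ₂ l r i x| ≤ d / K := by
  have hK : 0 < K := by linarith [hb.hK]
  unfold piece
  set z := x + (bk0 Φ l r + i : ℝ) with hz
  have hm := h₂.mem_piece hb hψ₂ hi hx
  rw [← hz] at hm
  have e1 := h.exp (τ z) (τ₂ z)
  rw [h.inv1] at e1
  have e2 := h₂.inv1 z
  have e3 : z - (Φ (τ₂ z) - ψ (τ₂ z)) = ψ (τ₂ z) - ψ₂ (τ₂ z) := by linarith
  rw [e3] at e1
  have e4 := hd (τ₂ z) ⟨hb.hl.trans hm.1, hm.2.trans hb.hr⟩
  rw [le_div_iff₀ hK]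
  linarith

lemma wt_compare' {ψ₂ τ₂ : ℝ → ℝ} (hb : Branch B K l r Φ Φ') (hψ : Curve ψ) (hψ₂ : Curve ψ₂)
    (h : Inv B K l r Φ Φ' ψ τ) (h₂ : Inv B K l r Φ Φ' ψ₂ τ₂) {d : ℝ} (hd1 : d ≤ 1)
    (hd : ∀ x ∈ Icc (0:ℝ) 1, |ψ x - ψ₂ x| ≤ d)
    {i : ℕ} (hi : i < bN Φ l r) :
    |wt Φ τ l r i - wt Φ τ₂ l r i| ≤ dist0 B K * wt Φ τ₂ l r i := by
  have hK : 0 < K := by linarith [hb.hK]
  unfold wt
  rw [← intervalIntegral.integral_sub (h.w_int hb hψ _ _ _) (h₂.w_int hb hψ₂ _ _ _),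
    ← intervalIntegral.integral_const_mul, ← Real.norm_eq_abs]
  apply intervalIntegral.norm_integral_le_of_norm_le (by norm_num)
  · apply Filter.Eventually.of_forall
    intro x hx
    rw [Real.norm_eq_abs]
    apply inv_compare hb hψ hψ₂ h h₂
    have hx' : x ∈ Icc (0:ℝ) 1 := ⟨hx.1.le, hx.2⟩
    have := wt_compare hb hψ hψ₂ h h₂ hd1 hd hi hx'
    unfold piece at this
    refine this.trans ?_
    gcongr
  · exact (h₂.w_int hb hψ₂ _ _ _).const_mul _

/-- averaging against an almost constant weight -/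
lemma avg_weight {w g : ℝ → ℝ} {ε : ℝ} (hw : IntervalIntegrable w volume 0 1)
    (hg : Measurable g) (hg1 : ∀ x, |g x| ≤ 1) (hw0 : ∀ x, 0 ≤ w x) (hε : 0 ≤ ε)
    (hwm : Measurable w)
    (hww : ∀ x ∈ Icc (0:ℝ) 1, ∀ y ∈ Icc (0:ℝ) 1, |w x - w y| ≤ ε * w y) :
    |(∫ x in (0:ℝ)..1, w x * g x) - (∫ x in (0:ℝ)..1, w x) * ∫ x in (0:ℝ)..1, g x| ≤
      ε * ∫ x in (0:ℝ)..1, w x := by
  set W := ∫ x in (0:ℝ)..1, w x with hW
  have h1 : ∀ x ∈ Icc (0:ℝ) 1, |w x - W| ≤ ε * W := by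
    intro x hx
    have e : w x - W = ∫ y in (0:ℝ)..1, (w x - w y) := by
      rw [intervalIntegral.integral_sub (by simp) hw]
      simp [hW]
    rw [e, hW, ← intervalIntegral.integral_const_mul, ← Real.norm_eq_abs]
    apply intervalIntegral.norm_integral_le_of_norm_le (by norm_num)
    · apply Filter.Eventually.of_forall
      intro y hy
      rw [Real.norm_eq_abs]
      exact hww x hx y ⟨hy.1.le, hy.2⟩
    · exact hw.const_mul _
  have hgi : IntervalIntegrable g volume 0 1 := by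
    refine (intervalIntegrable_const (c := (1:ℝ))).mono_fun hg.aestronglyMeasurable ?_
    refine Filter.Eventually.of_forall (fun x => ?_)
    simp only [Real.norm_eq_abs, abs_one]
    exact hg1 x
  have hwg : IntervalIntegrable (fun x => w x * g x) volume 0 1 := by
    refine hw.mono_fun (hwm.mul hg).aestronglyMeasurable ?_
    refine Filter.Eventually.of_forall (fun x => ?_)
    simp only [Real.norm_eq_abs, abs_mul]
    calc _ ≤ |w x| * 1 := mul_le_mul_of_nonneg_left (hg1 x) (abs_nonneg _)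
      _ = _ := mul_one _
  have e : (∫ x in (0:ℝ)..1, w x * g x) - W * ∫ x in (0:ℝ)..1, g x =
      ∫ x in (0:ℝ)..1, (w x - W) * g x := by
    rw [← intervalIntegral.integral_const_mul, ← intervalIntegral.integral_sub hwg (hgi.const_mul _)]
    apply intervalIntegral.integral_congr
    intro x _
    simp only; ring
  rw [e, ← Real.norm_eq_abs]
  have := intervalIntegral.norm_integral_le_of_norm_le_const (a := (0:ℝ)) (b := 1) (C := ε * W)
    (f := fun x => (w x - W) * g x) (by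
      intro x hx
      rw [uIoc_of_le (by norm_num)] at hx
      rw [Real.norm_eq_abs, abs_mul]
      have h2 := h1 x ⟨hx.1.le, hx.2⟩
      have h3 : 0 ≤ ε * W := (abs_nonneg _).trans h2
      calc _ ≤ (ε * W) * 1 := mul_le_mul h2 (hg1 x) (abs_nonneg _) h3
        _ = _ := mul_one _)
  simpa using this

lemma piece_transfer (hb : Branch B K l r Φ Φ') (hψ : Curve ψ) (h : Inv B K l r Φ Φ' ψ τ)
    {φ : ℝ → ℝ} (hφ : Measurable φ) (hφ1 : ∀ x, |φ x| ≤ 1)
    {H : ℝ → ℝ → ℝ} (hH : Measurable (Function.uncurry H)) (hH1 : ∀ x y, |H x y| ≤ 1)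
    (hHp : ∀ x y, ∀ n : ℤ, H (x + n) y = H x y) {i : ℕ} (hi : i < bN Φ l r) :
    |(∫ x in (0:ℝ)..1, |deriv τ (x + (bk0 Φ l r + i : ℝ))| *
        (φ (τ (x + (bk0 Φ l r + i : ℝ))) *
          H (x + (bk0 Φ l r + i : ℝ)) (τ (x + (bk0 Φ l r + i : ℝ))))) -
      wt Φ τ l r i * ∫ x in (0:ℝ)..1, φ (piece Φ τ l r i x) * H x (piece Φ τ l r i x)| ≤
      dist0 B K * wt Φ τ l r i := by
  have hK : 0 < K := by linarith [hb.hK]
  have hp : ∀ x, H (x + (bk0 Φ l r + i : ℝ)) (τ (x + (bk0 Φ l r + i : ℝ))) =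
      H x (piece Φ τ l r i x) := by
    intro x
    unfold piece
    have := hHp x (τ (x + (bk0 Φ l r + i : ℝ))) (bk0 Φ l r + i)
    push_cast at this
    exact this
  simp_rw [hp]
  have hpm : Measurable (piece Φ τ l r i) := by
    unfold piece
    exact h.continuous.measurable.comp (measurable_id.add_const _)
  refine avg_weight (w := fun x => |deriv τ (x + (bk0 Φ l r + i : ℝ))|)
    (g := fun x => φ (piece Φ τ l r i x) * H x (piece Φ τ l r i x)) (h.w_int hb hψ _ _ _)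
    ?_ ?_ (fun x => abs_nonneg _) ?_ ?_ ?_
  · exact (hφ.comp hpm).mul (hH.comp (measurable_id.prodMk hpm))
  · intro x
    rw [abs_mul]
    calc _ ≤ (1:ℝ) * 1 := mul_le_mul (hφ1 _) (hH1 _ _) (abs_nonneg _) (by norm_num)
      _ = 1 := by norm_num
  · unfold dist0; have := hb.hB; positivity
  · exact ((measurable_deriv τ).comp (measurable_id.add_const _)).abs
  · intro x hx y hy
    apply inv_compare hb hψ hψ h h
    refine (h.lip hb _ _).trans ?_
    gcongr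
    rw [show x + (bk0 Φ l r + i : ℝ) - (y + (bk0 Φ l r + i : ℝ)) = x - y by ring]
    rw [abs_le]
    exact ⟨by linarith [hx.1, hy.2], by linarith [hx.2, hy.1]⟩

lemma branch_transfer (hb : Branch B K l r Φ Φ') (hψ : Curve ψ) (h : Inv B K l r Φ Φ' ψ τ)
    {φ : ℝ → ℝ} (hφ : Measurable φ) (hφ1 : ∀ x, |φ x| ≤ 1)
    {H : ℝ → ℝ → ℝ} (hH : Measurable (Function.uncurry H)) (hH1 : ∀ x y, |H x y| ≤ 1)
    (hHp : ∀ x y, ∀ n : ℤ, H (x + n) y = H x y) :
    |(∫ t in l..r, φ t * H (Φ t - ψ t) t) - ∑ i ∈ Finset.range (bN Φ l r),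
      wt Φ τ l r i * ∫ x in (0:ℝ)..1, φ (piece Φ τ l r i x) * H x (piece Φ τ l r i x)| ≤
      4 / K + dist0 B K * ∑ i ∈ Finset.range (bN Φ l r), wt Φ τ l r i := by
  have hum : Measurable (fun t => φ t * H (Φ t - ψ t) t) :=
    hφ.mul (hH.comp (((hb.continuous.sub hψ.diff.continuous).measurable).prodMk measurable_id))
  obtain ⟨R, hR, hR1, _⟩ := h.integral_decomp hb hψ hum (by
    intro t
    rw [abs_mul]
    calc _ ≤ (1:ℝ) * 1 := mul_le_mul (hφ1 _) (hH1 _ _) (abs_nonneg _) (by norm_num)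
      _ = 1 := by norm_num)
  simp only [h.inv1] at hR
  rw [hR, Finset.mul_sum]
  have h1 : ∀ i ∈ Finset.range (bN Φ l r), _ := fun i hi =>
    piece_transfer hb hψ h hφ hφ1 hH hH1 hHp (Finset.mem_range.1 hi)
  have h2 := (Finset.abs_sum_le_sum_abs _ _).trans (Finset.sum_le_sum h1)
  rw [Finset.sum_sub_distrib] at h2
  rw [add_sub_right_comm, add_comm (4 / K)]
  exact (abs_add_le _ _).trans (add_le_add h2 hR1)

lemma sum_wt_le (hb : Branch B K l r Φ Φ') (hψ : Curve ψ) (h : Inv B K l r Φ Φ' ψ τ) :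
    ∑ i ∈ Finset.range (bN Φ l r), wt Φ τ l r i ≤ r - l := by
  obtain ⟨R, hR, _, hR2⟩ := h.integral_decomp hb hψ (u := fun _ => 1) measurable_const (by simp)
  have hR3 := hR2 (by intro t; norm_num)
  simp only [intervalIntegral.integral_const, smul_eq_mul, mul_one] at hR
  unfold wt
  linarith

end

end Pool.Agent.Helper53.SM
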