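import Mathlib
import Pool.Agent.Helper53.SM.Transfer

set_option autoImplicit false
open MeasureTheory Real Set

namespace Pool.Agent.Helper53.SM

/-- the force function of the standard map -/
noncomputable def F (a x : ℝ) : ℝ := 2 * x + a * Real.sin (2 * π * x)
/-- its derivative -/
noncomputable def F' (a x : ℝ) : ℝ := 2 + a * (Real.cos (2 * π * x) * (2 * π))

lemma hasDerivAt_F (a x : ℝ) : HasDerivAt (F a) (F' a x) x := by
  unfold F F'
  have h1 : HasDerivAt (fun y : ℝ => 2 * π * y) (2 * π) x := by
    simpa using (hasDerivAt_id x).const_mul (2 * π)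
  have h2 : HasDerivAt (fun y : ℝ => 2 * y) 2 x := by
    simpa using (hasDerivAt_id x).const_mul (2 : ℝ)
  exact h2.add ((h1.sin).const_mul a)

lemma F'_continuous (a : ℝ) : Continuous (F' a) := by
  unfold F'; fun_prop

lemma F_continuous (a : ℝ) : Continuous (F a) := by
  unfold F; fun_prop

lemma F'_lip (a x y : ℝ) : |F' a x - F' a y| ≤ 4 * π ^ 2 * |a| * |x - y| := by
  unfold F'
  have h : |Real.cos (2 * π * x) - Real.cos (2 * π * y)| ≤ |2 * π * x - 2 * π * y| := by
    have := Real.lipschitzWith_cos.dist_le_mul (2 * π * x) (2 * π * y)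
    simpa [Real.dist_eq] using this
  have e : 2 + a * (Real.cos (2 * π * x) * (2 * π)) - (2 + a * (Real.cos (2 * π * y) * (2 * π))) =
      a * (2 * π) * (Real.cos (2 * π * x) - Real.cos (2 * π * y)) := by ring
  rw [e, abs_mul, abs_mul]
  have h2 : |2 * π * x - 2 * π * y| = 2 * π * |x - y| := by
    rw [← mul_sub, abs_mul, abs_of_pos (by positivity : (0:ℝ) < 2 * π)]
  rw [h2] at h
  rw [abs_of_pos (by positivity : (0:ℝ) < 2 * π)]
  calc |a| * (2 * π) * |Real.cos (2 * π * x) - Real.cos (2 * π * y)|
      ≤ |a| * (2 * π) * (2 * π * |x - y|) := by gcongr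
    _ = _ := by ring

/-- clamp to `[l,r]` -/
noncomputable def clamp (l r u : ℝ) : ℝ := max l (min u r)

lemma clamp_continuous (l r : ℝ) : Continuous (clamp l r) := by unfold clamp; fun_prop

lemma clamp_mem {l r : ℝ} (h : l ≤ r) (u : ℝ) : clamp l r u ∈ Icc l r := by
  unfold clamp
  exact ⟨le_max_left _ _, max_le h (min_le_right _ _)⟩

lemma clamp_eq {l r u : ℝ} (hu : u ∈ Icc l r) : clamp l r u = u := by
  unfold clamp
  rw [min_eq_left hu.2, max_eq_right hu.1]

lemma clamp_lip (l r u v : ℝ) : |clamp l r u - clamp l r v| ≤ |u - v| := by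
  unfold clamp
  calc _ ≤ |min u r - min v r| := by
        have := abs_max_sub_max_le_abs (min u r) (min v r) l
        rwa [max_comm (min u r), max_comm (min v r)] at this
    _ ≤ |u - v| := abs_min_sub_min_le_max _ _ _ _ |>.trans (by simp)

/-- extension of `F a` off `[l,r]` by affine functions -/
noncomputable def ext (a l r x : ℝ) : ℝ := F a l + ∫ u in l..x, F' a (clamp l r u)

lemma hasDerivAt_ext (a l r x : ℝ) : HasDerivAt (ext a l r) (F' a (clamp l r x)) x := by
  unfold ext
  have hc : Continuous (fun u => F' a (clamp l r u)) := (F'_continuous a).comp (clamp_continuous l r)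
  exact (intervalIntegral.integral_hasDerivAt_right (hc.intervalIntegrable _ _)
    (hc.stronglyMeasurableAtFilter _ _) hc.continuousAt).const_add _

lemma ext_eq {a l r t : ℝ} (ht : t ∈ Icc l r) : ext a l r t = F a t := by
  unfold ext
  have h1 : ∫ u in l..t, F' a (clamp l r u) = ∫ u in l..t, F' a u := by
    apply intervalIntegral.integral_congr
    intro u hu
    rw [uIcc_of_le ht.1] at hu
    simp only
    rw [clamp_eq ⟨hu.1, hu.2.trans ht.2⟩]
  rw [h1, intervalIntegral.integral_eq_sub_of_hasDerivAt (fun x _ => hasDerivAt_F a x)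
    ((F'_continuous a).intervalIntegrable _ _)]
  ring

/-- left end points of the good intervals -/
noncomputable def bl (s : ℝ) : Fin 3 → ℝ := ![0, 1 / 4 + s, 3 / 4 + s]
/-- right end points of the good intervals -/
noncomputable def br (s : ℝ) : Fin 3 → ℝ := ![1 / 4 - s, 3 / 4 - s, 1]

lemma cos_pos_branch {s x : ℝ} (hs : 0 < s) (hs2 : s ≤ 1 / 4) (hx : |x| ≤ 1 / 4 - s) :
    4 * s ≤ Real.cos (2 * π * x) := by
  have hpi := Real.pi_pos
  have h1 : Real.cos (2 * π * x) = Real.sin (π / 2 - 2 * π * |x|) := by
    rw [Real.sin_pi_div_two_sub]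
    rcases abs_cases x with ⟨h, _⟩ | ⟨h, _⟩
    · rw [h]
    · rw [h, mul_neg, Real.cos_neg]
  rw [h1]
  have h2 : 2 * π * s ≤ π / 2 - 2 * π * |x| := by nlinarith
  have h3 : π / 2 - 2 * π * |x| ≤ π / 2 := by
    have := abs_nonneg x
    nlinarith
  have h4 := Real.mul_le_sin (x := 2 * π * s) (by positivity) (by nlinarith)
  have h5 : Real.sin (2 * π * s) ≤ Real.sin (π / 2 - 2 * π * |x|) := by
    apply Real.sin_le_sin_of_le_of_le_pi_div_two _ h3 h2
    have : 0 < 2 * π * s := by positivity
    linarith
  refine le_trans ?_ h5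
  refine le_trans (le_of_eq ?_) h4
  field_simp
  ring

lemma branch_std {a s K : ℝ} (hs : 0 < s) (hs2 : s ≤ 1 / 8) (hK : 1 ≤ K)
    (hKa : K + 1 / 2 ≤ 8 * π * |a| * s - 2) (b : Fin 3) :
    Branch (4 * π ^ 2 * |a|) K (bl s b) (br s b) (ext a (bl s b) (br s b))
      (fun x => F' a (clamp (bl s b) (br s b) x)) := by
  have hpi := Real.pi_pos
  have hlr : bl s b ≤ br s b := by
    fin_cases b <;> simp [bl, br] <;> linarith
  have hl : 0 ≤ bl s b := by
    fin_cases b <;> simp [bl] <;> linarith
  have hr : br s b ≤ 1 := by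
    fin_cases b <;> simp [br] <;> linarith
  have key : (∀ x ∈ Icc (bl s b) (br s b), 4 * s ≤ Real.cos (2 * π * x)) ∨
      (∀ x ∈ Icc (bl s b) (br s b), Real.cos (2 * π * x) ≤ -(4 * s)) := by
    fin_cases b
    · left
      intro x hx
      simp only [bl, br, Fin.zero_eta, Matrix.cons_val_zero] at hx
      apply cos_pos_branch hs (by linarith)
      rw [abs_le]; exact ⟨by linarith [hx.1], hx.2⟩
    · right
      intro x hx
      simp only [bl, br, Fin.mk_one, Matrix.cons_val_one, Matrix.cons_val_zero] at hx
      have := cos_pos_branch (s := s) (x := x - 1 / 2) hs (by linarith) (by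
        rw [abs_le]; exact ⟨by linarith [hx.1], by linarith [hx.2]⟩)
      have e : 2 * π * (x - 1 / 2) = 2 * π * x - π := by ring
      rw [e, Real.cos_sub_pi] at this
      linarith
    · left
      intro x hx
      simp only [bl, br, Fin.reduceFinMk, Matrix.cons_val] at hx
      have := cos_pos_branch (s := s) (x := x - 1) hs (by linarith) (by
        rw [abs_le]; exact ⟨by linarith [hx.1], by linarith [hx.2]⟩)
      have e : 2 * π * (x - 1) = 2 * π * x - 2 * π := by ring
      rw [e, Real.cos_sub_two_pi] at this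
      exact this
  have hF : (∀ x ∈ Icc (bl s b) (br s b), K + 1 / 2 ≤ F' a x) ∨
      (∀ x ∈ Icc (bl s b) (br s b), F' a x ≤ -(K + 1 / 2)) := by
    rcases le_total 0 a with ha | ha
    · rw [abs_of_nonneg ha] at hKa
      rcases key with h | h
      · left
        intro x hx
        have h1 := h x hx
        unfold F'
        have h2 : a * (4 * s * (2 * π)) ≤ a * (Real.cos (2 * π * x) * (2 * π)) := by gcongr
        nlinarith
      · right
        intro x hx
        have h1 := h x hx
        unfold F'
        have h2 : a * (Real.cos (2 * π * x) * (2 * π)) ≤ a * (-(4 * s) * (2 * π)) := by gcongr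
        nlinarith
    · rw [abs_of_nonpos ha] at hKa
      rcases key with h | h
      · right
        intro x hx
        have h1 := h x hx
        unfold F'
        have h2 : (-a) * (4 * s * (2 * π)) ≤ (-a) * (Real.cos (2 * π * x) * (2 * π)) := by
          have : 0 ≤ -a := by linarith
          gcongr
        nlinarith
      · left
        intro x hx
        have h1 := h x hx
        unfold F'
        have h2 : (-a) * (Real.cos (2 * π * x) * (2 * π)) ≤ (-a) * (-(4 * s) * (2 * π)) := by
          have : 0 ≤ -a := by linarith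
          gcongr
        nlinarith
  refine ⟨hl, hlr, hr, by positivity, hK, fun x => hasDerivAt_ext a _ _ x, ?_, ?_⟩
  · rcases hF with h | h
    · left; intro x; exact h _ (clamp_mem hlr x)
    · right; intro x; exact h _ (clamp_mem hlr x)
  · intro x y
    exact (F'_lip a _ _).trans (mul_le_mul_of_nonneg_left (clamp_lip _ _ _ _) (by positivity))

end Pool.Agent.Helper53.SM
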