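import Mathlib
import Pool.Agent.Helper53.SM.Std

set_option autoImplicit false
open MeasureTheory Real Set

namespace Pool.Agent.Helper53.SM

/-- a bounded kernel that is `1`-periodic in the first variable -/
structure Ker (H : ℝ → ℝ → ℝ) : Prop where
  meas : Measurable (Function.uncurry H)
  bdd : ∀ x y, |H x y| ≤ 1
  per : ∀ x y, ∀ n : ℤ, H (x + n) y = H x y

/-- a bounded density -/
structure Den (φ : ℝ → ℝ) : Prop where
  meas : Measurable φ
  bdd : ∀ x, |φ x| ≤ 1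

/-- error of one step -/
noncomputable def err (a s K : ℝ) : ℝ := 12 / K + 4 * s + dist0 (4 * π ^ 2 * |a|) K

abbrev Idx := Σ _ : Fin 3, ℕ

lemma unit_split {u : ℝ → ℝ} (hu : Measurable u) (hu1 : ∀ t, |u t| ≤ 1) {s : ℝ} (hs : 0 < s)
    (_hs2 : s ≤ 1 / 8) :
    |(∫ t in (0:ℝ)..1, u t) - ∑ b : Fin 3, ∫ t in (bl s b)..(br s b), u t| ≤ 4 * s := by
  have hi : ∀ p q : ℝ, IntervalIntegrable u volume p q := by
    intro p q
    refine (intervalIntegrable_const (c := (1:ℝ))).mono_fun hu.aestronglyMeasurable ?_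
    refine Filter.Eventually.of_forall (fun x => ?_)
    simp only [Real.norm_eq_abs, abs_one]
    exact hu1 x
  have h1 : ∫ t in (0:ℝ)..1, u t = (∫ t in (0:ℝ)..(1/4 - s), u t) + (∫ t in (1/4 - s)..(1/4+s), u t) +
      (∫ t in (1/4 + s)..(3/4-s), u t) + (∫ t in (3/4 - s)..(3/4+s), u t) +
      (∫ t in (3/4 + s)..1, u t) := by
    rw [intervalIntegral.integral_add_adjacent_intervals (hi _ _) (hi _ _),
      intervalIntegral.integral_add_adjacent_intervals (hi _ _) (hi _ _),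
      intervalIntegral.integral_add_adjacent_intervals (hi _ _) (hi _ _),
      intervalIntegral.integral_add_adjacent_intervals (hi _ _) (hi _ _)]
  have h2 : ∀ c : ℝ, |∫ t in (c - s)..(c + s), u t| ≤ 2 * s := by
    intro c
    have := intervalIntegral.norm_integral_le_of_norm_le_const (a := c - s) (b := c + s) (C := 1)
      (f := u) (fun x _ => by rw [Real.norm_eq_abs]; exact hu1 x)
    rw [Real.norm_eq_abs] at this
    refine this.trans ?_
    rw [show c + s - (c - s) = 2 * s by ring, abs_of_pos (by positivity)]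
    linarith
  rw [Fin.sum_univ_three]
  simp only [bl, br, Matrix.cons_val_zero, Matrix.cons_val_one, Matrix.cons_val]
  rw [h1]
  have e : (∫ t in (0:ℝ)..(1/4 - s), u t) + (∫ t in (1/4 - s)..(1/4+s), u t) +
      (∫ t in (1/4 + s)..(3/4-s), u t) + (∫ t in (3/4 - s)..(3/4+s), u t) +
      (∫ t in (3/4 + s)..1, u t) - ((∫ t in (0:ℝ)..(1/4 - s), u t) +
      (∫ t in (1/4 + s)..(3/4-s), u t) + (∫ t in (3/4 + s)..1, u t)) =
      (∫ t in (1/4 - s)..(1/4+s), u t) + (∫ t in (3/4 - s)..(3/4+s), u t) := by ring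
  rw [e]
  calc _ ≤ _ := abs_add_le _ _
    _ ≤ 2 * s + 2 * s := add_le_add (h2 _) (h2 _)
    _ = 4 * s := by ring

/-- total transfer for a single curve, given inverse data on each branch -/
lemma total_transfer {a s K : ℝ} (hs : 0 < s) (hs2 : s ≤ 1 / 8) (hK : 2 ≤ K)
    (hKa : K + 1 / 2 ≤ 8 * π * |a| * s - 2) {ψ : ℝ → ℝ} (hψ : Curve ψ) {τ : Fin 3 → ℝ → ℝ}
    (hτ : ∀ b, Inv (4 * π ^ 2 * |a|) K (bl s b) (br s b) (ext a (bl s b) (br s b))
      (fun x => F' a (clamp (bl s b) (br s b) x)) ψ (τ b)) {φ : ℝ → ℝ} (hφ : Den φ)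
    {H : ℝ → ℝ → ℝ} (hH : Ker H) :
    |(∫ t in (0:ℝ)..1, φ t * H (F a t - ψ t) t) -
      ∑ i ∈ (Finset.univ : Finset (Fin 3)).sigma
          (fun b => Finset.range (bN (ext a (bl s b) (br s b)) (bl s b) (br s b))),
        wt (ext a (bl s i.1) (br s i.1)) (τ i.1) (bl s i.1) (br s i.1) i.2 *
        ∫ x in (0:ℝ)..1, φ (piece (ext a (bl s i.1) (br s i.1)) (τ i.1) (bl s i.1) (br s i.1) i.2 x) *
          H x (piece (ext a (bl s i.1) (br s i.1)) (τ i.1) (bl s i.1) (br s i.1) i.2 x)| ≤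
      err a s K := by
  rw [Finset.sum_sigma]
  simp only
  have hum : Measurable (fun t => φ t * H (F a t - ψ t) t) :=
    hφ.meas.mul (hH.meas.comp ((((F_continuous a).sub hψ.diff.continuous).measurable).prodMk
      measurable_id))
  have h1 := unit_split hum (by
    intro t
    rw [abs_mul]
    calc _ ≤ (1:ℝ) * 1 := mul_le_mul (hφ.bdd _) (hH.bdd _ _) (abs_nonneg _) (by norm_num)
      _ = 1 := by norm_num) hs hs2
  have hbr := fun b => branch_std (a := a) hs hs2 (by linarith : (1:ℝ) ≤ K) hKa b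
  have h2 : ∀ b ∈ (Finset.univ : Finset (Fin 3)), _ := fun b _ =>
    branch_transfer (hbr b) hψ (hτ b) hφ.meas hφ.bdd hH.meas hH.bdd hH.per
  have h3 := (Finset.abs_sum_le_sum_abs _ _).trans (Finset.sum_le_sum h2)
  rw [Finset.sum_sub_distrib] at h3
  have h4 : ∑ b : Fin 3, ∫ t in (bl s b)..(br s b), φ t * H (ext a (bl s b) (br s b) t - ψ t) t =
      ∑ b : Fin 3, ∫ t in (bl s b)..(br s b), φ t * H (F a t - ψ t) t := by
    apply Finset.sum_congr rfl
    intro b _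
    apply intervalIntegral.integral_congr
    intro t ht
    rw [uIcc_of_le (hbr b).hlr] at ht
    simp only
    rw [ext_eq ht]
  rw [h4] at h3
  have h5 : ∑ b : Fin 3, (4 / K + dist0 (4 * π ^ 2 * |a|) K *
      ∑ i ∈ Finset.range (bN (ext a (bl s b) (br s b)) (bl s b) (br s b)),
        wt (ext a (bl s b) (br s b)) (τ b) (bl s b) (br s b) i) ≤
      12 / K + dist0 (4 * π ^ 2 * |a|) K := by
    rw [Finset.sum_add_distrib, ← Finset.mul_sum]
    have h6 : ∑ b : Fin 3, ∑ i ∈ Finset.range (bN (ext a (bl s b) (br s b)) (bl s b) (br s b)),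
        wt (ext a (bl s b) (br s b)) (τ b) (bl s b) (br s b) i ≤ ∑ b : Fin 3, (br s b - bl s b) :=
      Finset.sum_le_sum (fun b _ => sum_wt_le (hbr b) hψ (hτ b))
    have h7 : ∑ b : Fin 3, (br s b - bl s b) ≤ 1 := by
      rw [Fin.sum_univ_three]
      simp only [bl, br, Matrix.cons_val_zero, Matrix.cons_val_one, Matrix.cons_val]
      linarith
    have h8 : 0 ≤ dist0 (4 * π ^ 2 * |a|) K := by unfold dist0; positivity
    have h9 : ∑ _b : Fin 3, 4 / K = 12 / K := by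
      rw [Finset.sum_const, Finset.card_univ, Fintype.card_fin, nsmul_eq_mul]
      push_cast
      ring
    rw [h9]
    have := mul_le_mul_of_nonneg_left (h6.trans h7) h8
    linarith
  unfold err
  have h10 := h3.trans h5
  have h11 := (abs_sub_le (∫ t in (0:ℝ)..1, φ t * H (F a t - ψ t) t)
    (∑ b : Fin 3, ∫ t in (bl s b)..(br s b), φ t * H (F a t - ψ t) t)
    (∑ b : Fin 3, ∑ i ∈ Finset.range (bN (ext a (bl s b) (br s b)) (bl s b) (br s b)),
      wt (ext a (bl s b) (br s b)) (τ b) (bl s b) (br s b) i *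
      ∫ x in (0:ℝ)..1, φ (piece (ext a (bl s b) (br s b)) (τ b) (bl s b) (br s b) i x) *
          H x (piece (ext a (bl s b) (br s b)) (τ b) (bl s b) (br s b) i x)))
  linarith

theorem step {a s K d : ℝ} (hs : 0 < s) (hs2 : s ≤ 1 / 8) (hK : 2 ≤ K)
    (hKa : K + 1 / 2 ≤ 8 * π * |a| * s - 2) {ψ ψ₂ : ℝ → ℝ} (hψ : Curve ψ) (hψ₂ : Curve ψ₂)
    (hd1 : d ≤ 1) (hd : ∀ x ∈ Icc (0:ℝ) 1, |ψ x - ψ₂ x| ≤ d) :
    ∃ (ι : Finset Idx) (W W₂ : Idx → ℝ) (P P₂ : Idx → ℝ → ℝ),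
      (∀ i ∈ ι, 0 ≤ W i ∧ 0 ≤ W₂ i ∧ Curve (P i) ∧ Curve (P₂ i) ∧
        (∀ x ∈ Icc (0:ℝ) 1, |P i x - P₂ i x| ≤ d / K) ∧
        (∀ x y, |P i x - P i y| ≤ |x - y| / K) ∧
        |W i - W₂ i| ≤ dist0 (4 * π ^ 2 * |a|) K * W₂ i) ∧
      ∑ i ∈ ι, W i ≤ 1 ∧ ∑ i ∈ ι, W₂ i ≤ 1 ∧
      (∀ φ H, Den φ → Ker H → |(∫ t in (0:ℝ)..1, φ t * H (F a t - ψ t) t) -
        ∑ i ∈ ι, W i * ∫ x in (0:ℝ)..1, φ (P i x) * H x (P i x)| ≤ err a s K) ∧
      (∀ φ H, Den φ → Ker H → |(∫ t in (0:ℝ)..1, φ t * H (F a t - ψ₂ t) t) -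
        ∑ i ∈ ι, W₂ i * ∫ x in (0:ℝ)..1, φ (P₂ i x) * H x (P₂ i x)| ≤ err a s K) := by
  have hbr := fun b => branch_std (a := a) hs hs2 (by linarith : (1:ℝ) ≤ K) hKa b
  choose τ hτ using fun b => exists_inv (hbr b) hψ
  choose τ₂ hτ₂ using fun b => exists_inv (hbr b) hψ₂
  have hsum : ∀ {ψ : ℝ → ℝ} (_ : Curve ψ) {τ : Fin 3 → ℝ → ℝ}
    (_ : ∀ b, Inv (4 * π ^ 2 * |a|) K (bl s b) (br s b) (ext a (bl s b) (br s b))
      (fun x => F' a (clamp (bl s b) (br s b) x)) ψ (τ b)),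
      ∑ i ∈ (Finset.univ : Finset (Fin 3)).sigma
          (fun b => Finset.range (bN (ext a (bl s b) (br s b)) (bl s b) (br s b))),
        wt (ext a (bl s i.1) (br s i.1)) (τ i.1) (bl s i.1) (br s i.1) i.2 ≤ 1 := by
    intro ψ hψ τ hτ
    rw [Finset.sum_sigma]
    have h6 : ∑ b : Fin 3, ∑ i ∈ Finset.range (bN (ext a (bl s b) (br s b)) (bl s b) (br s b)),
        wt (ext a (bl s b) (br s b)) (τ b) (bl s b) (br s b) i ≤ ∑ b : Fin 3, (br s b - bl s b) :=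
      Finset.sum_le_sum (fun b _ => sum_wt_le (hbr b) hψ (hτ b))
    refine h6.trans ?_
    rw [Fin.sum_univ_three]
    simp only [bl, br, Matrix.cons_val_zero, Matrix.cons_val_one, Matrix.cons_val]
    linarith
  refine ⟨(Finset.univ : Finset (Fin 3)).sigma
      (fun b => Finset.range (bN (ext a (bl s b) (br s b)) (bl s b) (br s b))),
    fun i => wt (ext a (bl s i.1) (br s i.1)) (τ i.1) (bl s i.1) (br s i.1) i.2,
    fun i => wt (ext a (bl s i.1) (br s i.1)) (τ₂ i.1) (bl s i.1) (br s i.1) i.2,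
    fun i => piece (ext a (bl s i.1) (br s i.1)) (τ i.1) (bl s i.1) (br s i.1) i.2,
    fun i => piece (ext a (bl s i.1) (br s i.1)) (τ₂ i.1) (bl s i.1) (br s i.1) i.2,
    ?_, hsum hψ hτ, hsum hψ₂ hτ₂, ?_, ?_⟩
  · intro i hi
    rw [Finset.mem_sigma] at hi
    have hi2 := Finset.mem_range.1 hi.2
    refine ⟨Inv.wt_nonneg _, Inv.wt_nonneg _, (hτ i.1).piece_curve (hbr i.1) hψ hK hi2,
      (hτ₂ i.1).piece_curve (hbr i.1) hψ₂ hK hi2, ?_, (hτ i.1).piece_lip (hbr i.1) i.2, ?_⟩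
    · intro x hx
      exact wt_compare (hbr i.1) hψ hψ₂ (hτ i.1) (hτ₂ i.1) hd1 hd hi2 hx
    · exact wt_compare' (hbr i.1) hψ hψ₂ (hτ i.1) (hτ₂ i.1) hd1 hd hi2
  · intro φ H hφ hH
    exact total_transfer hs hs2 hK hKa hψ hτ hφ hH
  · intro φ H hφ hH
    exact total_transfer hs hs2 hK hKa hψ₂ hτ₂ hφ hH

end Pool.Agent.Helper53.SM
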