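import Mathlib
import Pool.Agent.Helper53.SM.Step

set_option autoImplicit false
open MeasureTheory Real Set

namespace Pool.Agent.Helper53.SM

/-- pull back of a function on the plane by the `n`-th iterate of the lifted standard map -/
noncomputable def itH (a : ℝ) (G : ℝ → ℝ → ℝ) : ℕ → ℝ → ℝ → ℝ
  | 0 => G
  | n + 1 => fun x y => itH a G n (F a x - y) x

/-- bounded doubly periodic kernels -/
structure Ker2 (H : ℝ → ℝ → ℝ) : Prop where
  meas : Measurable (Function.uncurry H)
  bdd : ∀ x y, |H x y| ≤ 1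
  per1 : ∀ x y, ∀ n : ℤ, H (x + n) y = H x y
  per2 : ∀ x y, ∀ n : ℤ, H x (y + n) = H x y

lemma Ker2.ker {H : ℝ → ℝ → ℝ} (h : Ker2 H) : Ker H := ⟨h.meas, h.bdd, h.per1⟩

lemma F_add_int (a x : ℝ) (n : ℤ) : F a (x + n) = F a x + 2 * n := by
  unfold F
  have : Real.sin (2 * π * (x + n)) = Real.sin (2 * π * x) := by
    have e : 2 * π * (x + n) = 2 * π * x + n * (2 * π) := by ring
    rw [e, Real.sin_add_int_mul_two_pi]
  rw [this]; ring

lemma Ker2.itH {a : ℝ} {G : ℝ → ℝ → ℝ} (h : Ker2 G) (n : ℕ) : Ker2 (itH a G n) := by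
  induction n with
  | zero => exact h
  | succ n ih =>
    refine ⟨?_, fun x y => ih.bdd _ _, ?_, ?_⟩
    · have hF := (F_continuous a).measurable
      have : Measurable (fun p : ℝ × ℝ => (F a p.1 - p.2, p.1)) :=
        ((hF.comp measurable_fst).sub measurable_snd).prodMk measurable_fst
      exact ih.meas.comp this
    · intro x y k
      show SM.itH a G n (F a (x + k) - y) (x + k) = SM.itH a G n (F a x - y) x
      rw [ih.per2, F_add_int]
      have e : F a x + 2 * (k:ℝ) - y = (F a x - y) + ((2 * k : ℤ) : ℝ) := by push_cast; ring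
      rw [e, ih.per1]
    · intro x y k
      show SM.itH a G n (F a x - (y + k)) x = SM.itH a G n (F a x - y) x
      have e : F a x - (y + (k:ℝ)) = (F a x - y) + ((-k : ℤ) : ℝ) := by push_cast; ring
      rw [e, ih.per1]

lemma Ker.int {H : ℝ → ℝ → ℝ} (hH : Ker H) {ψ : ℝ → ℝ} (hψ : Continuous ψ) {φ : ℝ → ℝ} (hφ : Den φ)
    (p q : ℝ) : IntervalIntegrable (fun t => φ t * H t (ψ t)) volume p q := by
  refine (intervalIntegrable_const (c := (1:ℝ))).mono_fun
    (hφ.meas.mul (hH.meas.comp (measurable_id.prodMk hψ.measurable))).aestronglyMeasurable ?_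
  refine Filter.Eventually.of_forall (fun x => ?_)
  simp only [Real.norm_eq_abs, abs_one, abs_mul]
  calc _ ≤ (1:ℝ) * 1 := mul_le_mul (hφ.bdd _) (hH.bdd _ _) (abs_nonneg _) (by norm_num)
      _ = 1 := by norm_num

lemma den_one : Den (fun _ => 1) := ⟨measurable_const, by simp⟩

lemma Ker.int1 {H : ℝ → ℝ → ℝ} (hH : Ker H) {ψ : ℝ → ℝ} (hψ : Continuous ψ)
    (p q : ℝ) : IntervalIntegrable (fun t => H t (ψ t)) volume p q := by
  have := hH.int hψ den_one p q
  simpa using this

lemma Ker.abs_le {H : ℝ → ℝ → ℝ} (hH : Ker H) {ψ : ℝ → ℝ} : 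
    |∫ t in (0:ℝ)..1, H t (ψ t)| ≤ 1 := by
  have := intervalIntegral.norm_integral_le_of_norm_le_const (a := (0:ℝ)) (b := 1) (C := 1)
    (f := fun t => H t (ψ t)) (fun x _ => by rw [Real.norm_eq_abs]; exact hH.bdd _ _)
  simpa using this

section
variable {a s K : ℝ}

lemma dist0_nonneg (hK : 0 < K) : 0 ≤ dist0 (4 * π ^ 2 * |a|) K := by unfold dist0; positivity

lemma err_nonneg (hs : 0 < s) (hK : 0 < K) : 0 ≤ err a s K := by
  unfold err; have := dist0_nonneg (a := a) hK; positivity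

/-- coupling of two curves -/
theorem coupling (hs : 0 < s) (hs2 : s ≤ 1 / 8) (hK : 2 ≤ K)
    (hKa : K + 1 / 2 ≤ 8 * π * |a| * s - 2) {G : ℝ → ℝ → ℝ} (hG : Ker2 G) {L : ℝ} (hL : 0 ≤ L)
    (hGL : ∀ x y y', |G x y - G x y'| ≤ L * |y - y'|) (n : ℕ) :
    ∀ {ψ ψ₂ : ℝ → ℝ} {d : ℝ}, Curve ψ → Curve ψ₂ → d ≤ 1 → (∀ x ∈ Icc (0:ℝ) 1, |ψ x - ψ₂ x| ≤ d) →
      |(∫ t in (0:ℝ)..1, itH a G n t (ψ t)) - ∫ t in (0:ℝ)..1, itH a G n t (ψ₂ t)| ≤
        n * (2 * err a s K + dist0 (4 * π ^ 2 * |a|) K) + L * d * (1 / K) ^ n := by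
  have hK0 : 0 < K := by linarith
  have hD := dist0_nonneg (a := a) hK0
  have hE := err_nonneg (a := a) hs hK0
  induction n with
  | zero =>
    intro ψ ψ₂ d hψ hψ₂ hd1 hd
    simp only [itH, Nat.cast_zero, zero_mul, pow_zero, mul_one, zero_add]
    rw [← intervalIntegral.integral_sub (hG.ker.int1 hψ.diff.continuous _ _)
      (hG.ker.int1 hψ₂.diff.continuous _ _)]
    have := intervalIntegral.norm_integral_le_of_norm_le_const (a := (0:ℝ)) (b := 1) (C := L * d)
      (f := fun t => G t (ψ t) - G t (ψ₂ t)) (fun x hx => by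
        rw [Real.norm_eq_abs]
        rw [uIoc_of_le (by norm_num)] at hx
        refine (hGL _ _ _).trans ?_
        have := hd x ⟨hx.1.le, hx.2⟩
        gcongr)
    simpa using this
  | succ n ih =>
    intro ψ ψ₂ d hψ hψ₂ hd1 hd
    obtain ⟨ι, W, W₂, P, P₂, hi, hW, hW₂, h1, h2⟩ := step (a := a) hs hs2 hK hKa hψ hψ₂ hd1 hd
    have hd0 : 0 ≤ d := (abs_nonneg _).trans (hd 0 ⟨le_refl _, by norm_num⟩)
    have hker := (hG.itH (a := a) n).ker
    have e1 := h1 (fun _ => 1) (itH a G n) den_one hker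
    have e2 := h2 (fun _ => 1) (itH a G n) den_one hker
    simp only [one_mul] at e1 e2
    set A := ∫ t in (0:ℝ)..1, itH a G (n + 1) t (ψ t) with hA
    set A₂ := ∫ t in (0:ℝ)..1, itH a G (n + 1) t (ψ₂ t) with hA₂
    have e1' : |A - ∑ i ∈ ι, W i * ∫ x in (0:ℝ)..1, itH a G n x (P i x)| ≤ err a s K := e1
    have e2' : |A₂ - ∑ i ∈ ι, W₂ i * ∫ x in (0:ℝ)..1, itH a G n x (P₂ i x)| ≤ err a s K := e2
    set E := (n:ℝ) * (2 * err a s K + dist0 (4 * π ^ 2 * |a|) K) + L * (d / K) * (1 / K) ^ n with hEdef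
    have hE0 : 0 ≤ E := by positivity
    have h3 : |(∑ i ∈ ι, W i * ∫ x in (0:ℝ)..1, itH a G n x (P i x)) -
        ∑ i ∈ ι, W₂ i * ∫ x in (0:ℝ)..1, itH a G n x (P₂ i x)| ≤
        dist0 (4 * π ^ 2 * |a|) K + E := by
      rw [← Finset.sum_sub_distrib]
      have h4 : ∀ i ∈ ι, |W i * (∫ x in (0:ℝ)..1, itH a G n x (P i x)) -
          W₂ i * ∫ x in (0:ℝ)..1, itH a G n x (P₂ i x)| ≤
          (dist0 (4 * π ^ 2 * |a|) K + E) * W₂ i := by
        intro i hii
        obtain ⟨w1, w2, c1, c2, dd, _, ww⟩ := hi i hii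
        have hdk : d / K ≤ 1 := by
          rw [div_le_one hK0]; linarith
        have h5 := ih c1 c2 hdk dd
        have h6 := hker.abs_le (ψ := P i)
        set p := ∫ x in (0:ℝ)..1, itH a G n x (P i x)
        set q := ∫ x in (0:ℝ)..1, itH a G n x (P₂ i x)
        have e : W i * p - W₂ i * q = (W i - W₂ i) * p + W₂ i * (p - q) := by ring
        rw [e]
        refine (abs_add_le _ _).trans ?_
        rw [abs_mul, abs_mul, abs_of_nonneg w2, add_mul]
        have h7 : |W i - W₂ i| * |p| ≤ dist0 (4 * π ^ 2 * |a|) K * W₂ i * 1 :=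
          mul_le_mul ww h6 (abs_nonneg _) (by positivity)
        have h8 : W₂ i * |p - q| ≤ W₂ i * E := mul_le_mul_of_nonneg_left h5 w2
        linarith
      refine ((Finset.abs_sum_le_sum_abs _ _).trans (Finset.sum_le_sum h4)).trans ?_
      rw [← Finset.mul_sum]
      have := mul_le_mul_of_nonneg_left hW₂ (by positivity : 0 ≤ dist0 (4 * π ^ 2 * |a|) K + E)
      linarith
    have e3 : L * (d / K) * (1 / K) ^ n = L * d * (1 / K) ^ (n + 1) := by
      rw [pow_succ]; ring
    rw [hEdef, e3] at h3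
    have e1a := abs_le.1 e1'
    have e2a := abs_le.1 e2'
    have h3a := abs_le.1 h3
    rw [abs_le]
    push_cast
    constructor
    · linarith [e1a.1, e2a.2, h3a.1]
    · linarith [e1a.2, e2a.1, h3a.2]

lemma curve_const {y : ℝ} (hy : y ∈ Icc (0:ℝ) 1) : Curve (fun _ => y) :=
  ⟨differentiable_const _, by simp, fun _ _ => hy⟩

/-- the double integral over the fundamental domain -/
noncomputable def I2 (G : ℝ → ℝ → ℝ) : ℝ := ∫ y in (0:ℝ)..1, ∫ x in (0:ℝ)..1, G x y

lemma Ker2.prod_int {H : ℝ → ℝ → ℝ} (hH : Ker2 H) :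
    IntegrableOn (Function.uncurry H) (Ioc (0:ℝ) 1 ×ˢ Ioc (0:ℝ) 1) (volume.prod volume) := by
  refine Measure.integrableOn_of_bounded (M := 1) ?_ hH.meas.aestronglyMeasurable ?_
  · rw [Measure.prod_prod]; simp
  · exact Filter.Eventually.of_forall (fun p => by rw [Real.norm_eq_abs]; exact hH.bdd _ _)

lemma Ker2.swap {H : ℝ → ℝ → ℝ} (hH : Ker2 H) :
    I2 H = ∫ x in (0:ℝ)..1, ∫ y in (0:ℝ)..1, H x y := by
  unfold I2
  have h := hH.prod_int
  rw [IntegrableOn, ← Measure.prod_restrict] at h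
  simp only [intervalIntegral.integral_of_le (zero_le_one' ℝ)]
  exact (integral_integral_swap (f := fun x y => H x y) h).symm

lemma I2_itH_succ {G : ℝ → ℝ → ℝ} (hG : Ker2 G) (n : ℕ) : I2 (itH a G (n + 1)) = I2 (itH a G n) := by
  rw [(hG.itH (n + 1)).swap]
  unfold I2
  apply intervalIntegral.integral_congr
  intro x _
  simp only [itH]
  have hn := hG.itH (a := a) n
  have hper : Function.Periodic (fun z => itH a G n z x) 1 := by
    intro z
    have := hn.per1 z x 1
    simpa using this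
  have h1 : ∫ y in (0:ℝ)..1, itH a G n (F a x - y) x = ∫ y in (F a x - 1)..(F a x), itH a G n y x := by
    rw [intervalIntegral.integral_comp_sub_left (fun z => itH a G n z x)]
    simp
  rw [h1]
  have h2 := hper.intervalIntegral_add_eq (F a x - 1) 0
  simpa using h2

lemma I2_itH {G : ℝ → ℝ → ℝ} (hG : Ker2 G) (n : ℕ) : I2 (itH a G n) = I2 G := by
  induction n with
  | zero => rfl
  | succ n ih => rw [I2_itH_succ hG, ih]

lemma I2_abs_le {G : ℝ → ℝ → ℝ} (hG : Ker2 G) : |I2 G| ≤ 1 := by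
  unfold I2
  have := intervalIntegral.norm_integral_le_of_norm_le_const (a := (0:ℝ)) (b := 1) (C := 1)
    (f := fun y => ∫ x in (0:ℝ)..1, G x y) (fun y _ => by
      have := intervalIntegral.norm_integral_le_of_norm_le_const (a := (0:ℝ)) (b := 1) (C := 1)
        (f := fun x => G x y) (fun x _ => by rw [Real.norm_eq_abs]; exact hG.bdd _ _)
      simpa using this)
  simpa using this

/-- equidistribution of a curve -/
theorem equidist (hs : 0 < s) (hs2 : s ≤ 1 / 8) (hK : 2 ≤ K)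
    (hKa : K + 1 / 2 ≤ 8 * π * |a| * s - 2) {G : ℝ → ℝ → ℝ} (hG : Ker2 G) {L : ℝ} (hL : 0 ≤ L)
    (hGL : ∀ x y y', |G x y - G x y'| ≤ L * |y - y'|) (n : ℕ) {ψ : ℝ → ℝ} (hψ : Curve ψ) :
    |(∫ t in (0:ℝ)..1, itH a G n t (ψ t)) - I2 G| ≤
        n * (2 * err a s K + dist0 (4 * π ^ 2 * |a|) K) + L * (1 / K) ^ n := by
  set E := n * (2 * err a s K + dist0 (4 * π ^ 2 * |a|) K) + L * (1 / K) ^ n with hE
  set A := ∫ t in (0:ℝ)..1, itH a G n t (ψ t) with hA
  have hn := hG.itH (a := a) n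
  have hy : ∀ y ∈ Icc (0:ℝ) 1, |A - ∫ t in (0:ℝ)..1, itH a G n t y| ≤ E := by
    intro y hy
    have := coupling hs hs2 hK hKa hG hL hGL n hψ (curve_const hy) (le_refl (1:ℝ)) (by
      intro x hx
      have h1 := hψ.maps x hx
      rw [abs_le]
      exact ⟨by linarith [h1.1, hy.2], by linarith [h1.2, hy.1]⟩)
    rw [mul_one] at this
    exact this
  rw [← I2_itH (a := a) hG n]
  have hmeas : IntervalIntegrable (fun y => ∫ t in (0:ℝ)..1, itH a G n t y) volume 0 1 := by
    have h := hn.prod_int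
    rw [IntegrableOn, ← Measure.prod_restrict] at h
    rw [intervalIntegrable_iff_integrableOn_Ioc_of_le (zero_le_one' ℝ)]
    have h2 := h.integral_prod_right
    simp only [intervalIntegral.integral_of_le (zero_le_one' ℝ)]
    exact h2
  have e : A - I2 (itH a G n) = ∫ y in (0:ℝ)..1, (A - ∫ t in (0:ℝ)..1, itH a G n t y) := by
    rw [intervalIntegral.integral_sub (by simp) hmeas]
    simp [I2]
  rw [e]
  have := intervalIntegral.norm_integral_le_of_norm_le_const (a := (0:ℝ)) (b := 1) (C := E)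
    (f := fun y => A - ∫ t in (0:ℝ)..1, itH a G n t y) (fun y hy' => by
      rw [uIoc_of_le (by norm_num)] at hy'
      rw [Real.norm_eq_abs]
      exact hy y ⟨hy'.1.le, hy'.2⟩)
  simpa using this

/-- decorrelation along a curve -/
theorem decor (hs : 0 < s) (hs2 : s ≤ 1 / 8) (hK : 2 ≤ K)
    (hKa : K + 1 / 2 ≤ 8 * π * |a| * s - 2) {G : ℝ → ℝ → ℝ} (hG : Ker2 G) {L : ℝ} (hL : 0 ≤ L)
    (hGL : ∀ x y y', |G x y - G x y'| ≤ L * |y - y'|) (k m : ℕ) :
    ∀ {ψ φ : ℝ → ℝ} {Λ : ℝ}, Curve ψ → Den φ → 0 ≤ Λ → (∀ x y, |φ x - φ y| ≤ Λ * |x - y|) →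
      |(∫ t in (0:ℝ)..1, φ t * itH a G (m + k) t (ψ t)) - I2 G * ∫ t in (0:ℝ)..1, φ t| ≤
        2 * m * err a s K + Λ * (1 / K) ^ m +
        (k * (2 * err a s K + dist0 (4 * π ^ 2 * |a|) K) + L * (1 / K) ^ k) := by
  have hK0 : 0 < K := by linarith
  have hD := dist0_nonneg (a := a) hK0
  have hE := err_nonneg (a := a) hs hK0
  have hI := I2_abs_le hG
  induction m with
  | zero =>
    intro ψ φ Λ hψ hφ hΛ hφL
    simp only [zero_add, Nat.cast_zero, mul_zero, zero_mul, pow_zero, mul_one]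
    have hker := (hG.itH (a := a) k).ker
    have heq := equidist hs hs2 hK hKa hG hL hGL k hψ
    set A := ∫ t in (0:ℝ)..1, itH a G k t (ψ t) with hA
    set c := ∫ t in (0:ℝ)..1, φ t with hc
    have hφi : IntervalIntegrable φ volume 0 1 := by
      refine (intervalIntegrable_const (c := (1:ℝ))).mono_fun hφ.meas.aestronglyMeasurable ?_
      refine Filter.Eventually.of_forall (fun x => ?_)
      simp only [Real.norm_eq_abs, abs_one]
      exact hφ.bdd x
    have hc1 : |c| ≤ 1 := by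
      have := intervalIntegral.norm_integral_le_of_norm_le_const (a := (0:ℝ)) (b := 1) (C := 1)
        (f := φ) (fun x _ => by rw [Real.norm_eq_abs]; exact hφ.bdd _)
      simpa using this
    have hcφ : ∀ x ∈ Icc (0:ℝ) 1, |φ x - c| ≤ Λ := by
      intro x hx
      have e : φ x - c = ∫ y in (0:ℝ)..1, (φ x - φ y) := by
        rw [intervalIntegral.integral_sub (by simp) hφi]
        simp [hc]
      rw [e]
      have := intervalIntegral.norm_integral_le_of_norm_le_const (a := (0:ℝ)) (b := 1) (C := Λ)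
        (f := fun y => φ x - φ y) (fun y hy => by
          rw [uIoc_of_le (by norm_num)] at hy
          rw [Real.norm_eq_abs]
          refine (hφL _ _).trans ?_
          have : |x - y| ≤ 1 := by
            rw [abs_le]; exact ⟨by linarith [hx.1, hy.2], by linarith [hx.2, hy.1]⟩
          calc _ ≤ Λ * 1 := mul_le_mul_of_nonneg_left this hΛ
            _ = Λ := mul_one _)
      simpa using this
    have e : (∫ t in (0:ℝ)..1, φ t * itH a G k t (ψ t)) - I2 G * c =
        (∫ t in (0:ℝ)..1, (φ t - c) * itH a G k t (ψ t)) + c * (A - I2 G) := by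
      have : (∫ t in (0:ℝ)..1, (φ t - c) * itH a G k t (ψ t)) =
          (∫ t in (0:ℝ)..1, φ t * itH a G k t (ψ t)) - c * A := by
        rw [hA, ← intervalIntegral.integral_const_mul, ← intervalIntegral.integral_sub
          (hker.int hψ.diff.continuous hφ _ _) ((hker.int1 hψ.diff.continuous _ _).const_mul _)]
        apply intervalIntegral.integral_congr
        intro t _
        simp only; ring
      rw [this]; ring
    rw [e]
    refine (abs_add_le _ _).trans (add_le_add ?_ ?_)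
    · have := intervalIntegral.norm_integral_le_of_norm_le_const (a := (0:ℝ)) (b := 1) (C := Λ)
        (f := fun t => (φ t - c) * itH a G k t (ψ t)) (fun t ht => by
          rw [uIoc_of_le (by norm_num)] at ht
          rw [Real.norm_eq_abs, abs_mul]
          calc _ ≤ Λ * 1 := mul_le_mul (hcφ t ⟨ht.1.le, ht.2⟩) (hker.bdd _ _) (abs_nonneg _) hΛ
            _ = Λ := mul_one _)
      simpa using this
    · rw [abs_mul]
      calc |c| * |A - I2 G| ≤ 1 * |A - I2 G| := by gcongr
        _ = |A - I2 G| := one_mul _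
        _ ≤ _ := heq
  | succ m ih =>
    intro ψ φ Λ hψ hφ hΛ hφL
    obtain ⟨ι, W, _, P, _, hi, hW, _, h1, _⟩ := step (a := a) (d := 0) hs hs2 hK hKa hψ hψ
      (by norm_num) (by intro x _; simp)
    have hker := (hG.itH (a := a) (m + k)).ker
    have e1 := h1 φ (itH a G (m + k)) hφ hker
    have hone : Ker (fun _ _ => 1) := ⟨measurable_const, by simp, by simp⟩
    have e2 := h1 φ (fun _ _ => 1) hφ hone
    simp only [mul_one] at e2
    have hmk : m + 1 + k = (m + k) + 1 := by ring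
    rw [hmk]
    have e1' : |(∫ t in (0:ℝ)..1, φ t * itH a G (m + k + 1) t (ψ t)) -
        ∑ i ∈ ι, W i * ∫ x in (0:ℝ)..1, φ (P i x) * itH a G (m + k) x (P i x)| ≤ err a s K := e1
    set T := ∫ t in (0:ℝ)..1, φ t * itH a G (m + k + 1) t (ψ t)
    set c := ∫ t in (0:ℝ)..1, φ t
    set E := 2 * m * err a s K + (Λ / K) * (1 / K) ^ m +
        (k * (2 * err a s K + dist0 (4 * π ^ 2 * |a|) K) + L * (1 / K) ^ k) with hEdef
    have hE0 : 0 ≤ E := by positivity
    have h3 : |(∑ i ∈ ι, W i * ∫ x in (0:ℝ)..1, φ (P i x) * itH a G (m + k) x (P i x)) -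
        I2 G * ∑ i ∈ ι, W i * ∫ x in (0:ℝ)..1, φ (P i x)| ≤ E := by
      rw [Finset.mul_sum, ← Finset.sum_sub_distrib]
      have h4 : ∀ i ∈ ι, |W i * (∫ x in (0:ℝ)..1, φ (P i x) * itH a G (m + k) x (P i x)) -
          I2 G * (W i * ∫ x in (0:ℝ)..1, φ (P i x))| ≤ E * W i := by
        intro i hii
        obtain ⟨w1, _, c1, _, _, lp, _⟩ := hi i hii
        have hden : Den (fun x => φ (P i x)) :=
          ⟨hφ.meas.comp c1.diff.continuous.measurable, fun x => hφ.bdd _⟩
        have h5 := ih c1 hden (by positivity : 0 ≤ Λ / K) (by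
          intro x y
          refine (hφL _ _).trans ?_
          calc Λ * |P i x - P i y| ≤ Λ * (|x - y| / K) := by
                have := lp x y
                gcongr
            _ = Λ / K * |x - y| := by ring)
        have e : W i * (∫ x in (0:ℝ)..1, φ (P i x) * itH a G (m + k) x (P i x)) -
          I2 G * (W i * ∫ x in (0:ℝ)..1, φ (P i x)) = W i *
            ((∫ x in (0:ℝ)..1, φ (P i x) * itH a G (m + k) x (P i x)) -
              I2 G * ∫ x in (0:ℝ)..1, φ (P i x)) := by ring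
        rw [e, abs_mul, abs_of_nonneg w1, mul_comm]
        exact mul_le_mul_of_nonneg_right h5 w1
      refine ((Finset.abs_sum_le_sum_abs _ _).trans (Finset.sum_le_sum h4)).trans ?_
      rw [← Finset.mul_sum]
      have := mul_le_mul_of_nonneg_left hW hE0
      linarith
    have h4 : |I2 G * (∑ i ∈ ι, W i * ∫ x in (0:ℝ)..1, φ (P i x)) - I2 G * c| ≤ err a s K := by
      rw [← mul_sub, abs_mul, abs_sub_comm]
      calc _ ≤ 1 * err a s K := mul_le_mul hI e2 (abs_nonneg _) (by norm_num)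
        _ = _ := one_mul _
    have e3 : (Λ / K) * (1 / K) ^ m = Λ * (1 / K) ^ (m + 1) := by
      rw [pow_succ]; ring
    rw [hEdef, e3] at h3
    have e1a := abs_le.1 e1'
    have h3a := abs_le.1 h3
    have h4a := abs_le.1 h4
    rw [abs_le]
    push_cast
    constructor
    · linarith [e1a.1, h3a.1, h4a.1]
    · linarith [e1a.2, h3a.2, h4a.2]

end

end Pool.Agent.Helper53.SM
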