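import Mathlib
import Pool.Agent.Helper53.SM.Recur

set_option autoImplicit false
open MeasureTheory Real Set

namespace Pool.Agent.Helper53.SM

abbrev T2 := UnitAddCircle × UnitAddCircle

/-- `T` is the standard map with parameter `a` -/
def IsStd (a : ℝ) (T : T2 → T2) : Prop :=
  ∀ x y : ℝ, T ((x : UnitAddCircle), (y : UnitAddCircle)) =
    (((2 * x - y + a * Real.sin (2 * π * x) : ℝ) : UnitAddCircle), (x : UnitAddCircle))

lemma isStd_iff {a : ℝ} {T : T2 → T2} (h : IsStd a T) (x y : ℝ) :
    T ((x : UnitAddCircle), (y : UnitAddCircle)) =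
      (((F a x - y : ℝ) : UnitAddCircle), (x : UnitAddCircle)) := by
  rw [h x y]
  have : 2 * x - y + a * Real.sin (2 * π * x) = F a x - y := by unfold F; ring
  rw [this]

lemma IsStd.continuous {a : ℝ} {T : T2 → T2} (h : IsStd a T) : Continuous T := by
  have hq : IsOpenQuotientMap (Prod.map ((↑) : ℝ → UnitAddCircle) ((↑) : ℝ → UnitAddCircle)) :=
    (QuotientAddGroup.isOpenQuotientMap_mk).prodMap (QuotientAddGroup.isOpenQuotientMap_mk)
  rw [← hq.continuous_comp_iff]
  have e : T ∘ (Prod.map ((↑) : ℝ → UnitAddCircle) ((↑) : ℝ → UnitAddCircle)) =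
      fun p : ℝ × ℝ => (((F a p.1 - p.2 : ℝ) : UnitAddCircle), (p.1 : UnitAddCircle)) := by
    funext p
    exact isStd_iff h p.1 p.2
  rw [e]
  have hF := F_continuous a
  have hc : Continuous ((↑) : ℝ → UnitAddCircle) := AddCircle.continuous_mk' 1
  exact (hc.comp ((hF.comp continuous_fst).sub continuous_snd)).prodMk (hc.comp continuous_fst)

lemma IsStd.form {a : ℝ} {T : T2 → T2} (h : IsStd a T) (p : T2) :
    T p = ((T (p.1, 0)).1 - p.2, p.1) := by
  obtain ⟨x, y⟩ := p
  induction x using QuotientAddGroup.induction_on with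
  | H x =>
    induction y using QuotientAddGroup.induction_on with
    | H y =>
      have h1 := isStd_iff h x y
      have h2 := isStd_iff h x 0
      rw [show ((x : UnitAddCircle), (0 : UnitAddCircle)) = ((x : UnitAddCircle), ((0:ℝ) : UnitAddCircle))
        by simp]
      simp only
      rw [h2]
      rw [h1]
      simp

lemma IsStd.measurePreserving {a : ℝ} {T : T2 → T2} (h : IsStd a T) :
    MeasurePreserving T volume volume := by
  have hc := h.continuous
  have h1 : MeasurePreserving (fun p : T2 => (p.1, (T (p.1, 0)).1 - p.2)) volume volume := by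
    refine MeasurePreserving.skew_product (f := id) (g := fun x y => (T (x, 0)).1 - y)
      (MeasurePreserving.id _) ?_ ?_
    · have : Continuous (Function.uncurry fun (x : UnitAddCircle) (y : UnitAddCircle) =>
          (T (x, 0)).1 - y) := by
        have h3 : Continuous (fun p : T2 => T (p.1, 0)) :=
          hc.comp (continuous_fst.prodMk continuous_const)
        exact (continuous_fst.comp h3).sub continuous_snd
      exact this.measurable
    · filter_upwards with x
      exact (Measure.measurePreserving_sub_left (volume : Measure UnitAddCircle) ((T (x, 0)).1)).map_eq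
  have h2 : MeasurePreserving (Prod.swap : T2 → T2) volume volume :=
    Measure.measurePreserving_swap
  have h3 := h2.comp h1
  have : T = Prod.swap ∘ (fun p : T2 => (p.1, (T (p.1, 0)).1 - p.2)) := by
    funext p
    rw [h.form p]
    rfl
  rw [this]
  exact h3

/-- the lift of a function on the torus -/
def lift2 (g : T2 → ℝ) : ℝ → ℝ → ℝ := fun x y => g ((x : UnitAddCircle), (y : UnitAddCircle))

lemma lift2_iter {a : ℝ} {T : T2 → T2} (h : IsStd a T) (g : T2 → ℝ) (n : ℕ) (x y : ℝ) :
    g (T^[n] ((x : UnitAddCircle), (y : UnitAddCircle))) = itH a (lift2 g) n x y := by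
  induction n generalizing x y with
  | zero => rfl
  | succ n ih =>
    rw [Function.iterate_succ_apply, isStd_iff h, ih]
    rfl

lemma measurable_mk : Measurable ((↑) : ℝ → UnitAddCircle) := (AddCircle.continuous_mk' 1).measurable

lemma ker2_lift2 {g : T2 → ℝ} (hg : Measurable g) (hg1 : ∀ p, |g p| ≤ 1) : Ker2 (lift2 g) := by
  refine ⟨?_, fun x y => hg1 _, ?_, ?_⟩
  · have : Measurable (fun p : ℝ × ℝ => ((p.1 : UnitAddCircle), (p.2 : UnitAddCircle))) :=
      (measurable_mk.comp measurable_fst).prodMk (measurable_mk.comp measurable_snd)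
    exact hg.comp this
  · intro x y n
    unfold lift2
    have : ((x + n : ℝ) : UnitAddCircle) = (x : UnitAddCircle) := by
      rw [AddCircle.coe_add]
      have : ((n : ℝ) : UnitAddCircle) = 0 := by
        rw [AddCircle.coe_eq_zero_iff]; exact ⟨n, by simp⟩
      rw [this, add_zero]
    rw [this]
  · intro x y n
    unfold lift2
    have : ((y + n : ℝ) : UnitAddCircle) = (y : UnitAddCircle) := by
      rw [AddCircle.coe_add]
      have : ((n : ℝ) : UnitAddCircle) = 0 := by
        rw [AddCircle.coe_eq_zero_iff]; exact ⟨n, by simp⟩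
      rw [this, add_zero]
    rw [this]

lemma integrable_of_bdd {g : T2 → ℝ} (hg : Measurable g) {C : ℝ} (hg1 : ∀ p, |g p| ≤ C) :
    Integrable g := by
  refine Integrable.of_bound hg.aestronglyMeasurable C ?_
  exact Filter.Eventually.of_forall (fun p => by rw [Real.norm_eq_abs]; exact hg1 p)

lemma integral_T2 {g : T2 → ℝ} (hg : Measurable g) {C : ℝ} (hg1 : ∀ p, |g p| ≤ C) :
    ∫ p, g p = I2 (lift2 g) := by
  have hi := integrable_of_bdd hg hg1
  unfold I2
  have h1 : ∫ p, g p = ∫ y : UnitAddCircle, ∫ x : UnitAddCircle, g (x, y) := by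
    have := integral_prod_symm (μ := (volume : Measure UnitAddCircle))
      (ν := (volume : Measure UnitAddCircle)) g hi
    exact this
  rw [h1]
  have h2 : ∀ u : UnitAddCircle → ℝ, ∫ z : UnitAddCircle, u z = ∫ t in (0:ℝ)..1, u (t : UnitAddCircle) := by
    intro u
    have := UnitAddCircle.intervalIntegral_preimage 0 u
    rw [zero_add] at this
    exact this.symm
  rw [h2]
  apply intervalIntegral.integral_congr
  intro y _
  simp only
  rw [h2]
  rfl

lemma dist_mk_le (x y : ℝ) : dist (x : UnitAddCircle) (y : UnitAddCircle) ≤ |x - y| := by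
  rw [dist_eq_norm, ← AddCircle.coe_sub]
  exact QuotientAddGroup.norm_mk_le_norm

section
variable {a s K : ℝ}

/-- finite time decorrelation -/
theorem mixing (hs : 0 < s) (hs2 : s ≤ 1 / 8) (hK : 2 ≤ K)
    (hKa : K + 1 / 2 ≤ 8 * π * |a| * s - 2) {T : T2 → T2} (hT : IsStd a T) {f g : T2 → ℝ}
    (hf1 : ∀ p, |f p| ≤ 1) (hg1 : ∀ p, |g p| ≤ 1) {L : ℝ} (hL : 0 ≤ L)
    (hfL : ∀ p q, |f p - f q| ≤ L * dist p q) (hgL : ∀ p q, |g p - g q| ≤ L * dist p q) (n : ℕ) :
    |(∫ p, f p * g (T^[n] p)) - (∫ p, f p) * ∫ p, g p| ≤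
      n * (2 * err a s K + dist0 (4 * π ^ 2 * |a|) K) + 2 * L * (1 / K) ^ (n / 2) := by
  have hK0 : 0 < K := by linarith
  have hfc : Continuous f := by
    refine LipschitzWith.continuous (K := L.toNNReal) (LipschitzWith.of_dist_le_mul ?_)
    intro p q
    rw [Real.dist_eq, Real.coe_toNNReal _ hL]
    exact hfL p q
  have hgc : Continuous g := by
    refine LipschitzWith.continuous (K := L.toNNReal) (LipschitzWith.of_dist_le_mul ?_)
    intro p q
    rw [Real.dist_eq, Real.coe_toNNReal _ hL]
    exact hgL p q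
  have hTn : Continuous (T^[n]) := hT.continuous.iterate n
  have hfg : Measurable (fun p => f p * g (T^[n] p)) :=
    hfc.measurable.mul (hgc.comp hTn).measurable
  have hfg1 : ∀ p, |f p * g (T^[n] p)| ≤ 1 := by
    intro p
    rw [abs_mul]
    calc _ ≤ (1:ℝ) * 1 := mul_le_mul (hf1 _) (hg1 _) (abs_nonneg _) (by norm_num)
      _ = 1 := by norm_num
  have hG := ker2_lift2 hgc.measurable hg1
  have hFk := ker2_lift2 hfc.measurable hf1
  have hFG := ker2_lift2 hfg hfg1
  rw [integral_T2 hfg hfg1, integral_T2 hfc.measurable hf1, integral_T2 hgc.measurable hg1]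
  set E := n * (2 * err a s K + dist0 (4 * π ^ 2 * |a|) K) + 2 * L * (1 / K) ^ (n / 2) with hE
  have hGL : ∀ x y y', |lift2 g x y - lift2 g x y'| ≤ L * |y - y'| := by
    intro x y y'
    unfold lift2
    refine (hgL _ _).trans ?_
    gcongr
    rw [Prod.dist_eq]
    simp only [dist_self]
    exact max_le (abs_nonneg _) (dist_mk_le _ _)
  have key : ∀ y ∈ Icc (0:ℝ) 1, |(∫ x in (0:ℝ)..1, lift2 (fun p => f p * g (T^[n] p)) x y) -
      I2 (lift2 g) * ∫ x in (0:ℝ)..1, lift2 f x y| ≤ E := by
    intro y hy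
    have hφ : Den (fun x => lift2 f x y) := by
      refine ⟨?_, fun x => hf1 _⟩
      exact hFk.meas.comp (measurable_id.prodMk measurable_const)
    have hφL : ∀ x x', |lift2 f x y - lift2 f x' y| ≤ L * |x - x'| := by
      intro x x'
      unfold lift2
      refine (hfL _ _).trans ?_
      gcongr
      rw [Prod.dist_eq]
      simp only [dist_self]
      exact max_le (dist_mk_le _ _) (abs_nonneg _)
    have h1 := decor hs hs2 hK hKa hG hL hGL (n - n / 2) (n / 2) (curve_const hy) hφ hL hφL
    have hn : n / 2 + (n - n / 2) = n := by omega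
    rw [hn] at h1
    have h2 : ∀ x, lift2 (fun p => f p * g (T^[n] p)) x y =
        lift2 f x y * itH a (lift2 g) n x y := by
      intro x
      have h9 := lift2_iter hT g n x y
      unfold lift2 at h9 ⊢
      simp only
      rw [h9]
    simp only [h2]
    refine h1.trans ?_
    rw [hE]
    have hD := dist0_nonneg (a := a) hK0
    have hEr := err_nonneg (a := a) hs hK0
    have h3 : (1 / K) ^ (n - n / 2) ≤ (1 / K) ^ (n / 2) := by
      apply pow_le_pow_of_le_one (by positivity)
      · rw [div_le_one hK0]; linarith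
      · omega
    have h4 : ((n / 2 : ℕ) : ℝ) + ((n - n / 2 : ℕ) : ℝ) = n := by exact_mod_cast hn
    have h5 : L * (1 / K) ^ (n - n / 2) ≤ L * (1 / K) ^ (n / 2) := by gcongr
    have h6 : (0:ℝ) ≤ ((n / 2 : ℕ) : ℝ) := by positivity
    have h7 : (0:ℝ) ≤ ((n / 2 : ℕ) : ℝ) * dist0 (4 * π ^ 2 * |a|) K := by positivity
    have h8 : (n:ℝ) * (2 * err a s K + dist0 (4 * π ^ 2 * |a|) K) =
      ((n / 2 : ℕ) : ℝ) * (2 * err a s K + dist0 (4 * π ^ 2 * |a|) K) +
      ((n - n / 2 : ℕ) : ℝ) * (2 * err a s K + dist0 (4 * π ^ 2 * |a|) K) := by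
      rw [← h4]; ring
    rw [h8]
    nlinarith
  have hint : ∀ {H : ℝ → ℝ → ℝ} (_ : Ker2 H), IntervalIntegrable (fun y => ∫ x in (0:ℝ)..1, H x y)
      volume 0 1 := by
    intro H hH
    have h := hH.prod_int
    rw [IntegrableOn, ← Measure.prod_restrict] at h
    rw [intervalIntegrable_iff_integrableOn_Ioc_of_le (zero_le_one' ℝ)]
    have h2 := h.integral_prod_right
    simp only [intervalIntegral.integral_of_le (zero_le_one' ℝ)]
    exact h2
  have e : I2 (lift2 (fun p => f p * g (T^[n] p))) - I2 (lift2 f) * I2 (lift2 g) =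
      ∫ y in (0:ℝ)..1, ((∫ x in (0:ℝ)..1, lift2 (fun p => f p * g (T^[n] p)) x y) -
      I2 (lift2 g) * ∫ x in (0:ℝ)..1, lift2 f x y) := by
    rw [intervalIntegral.integral_sub (hint hFG) ((hint hFk).const_mul _),
      intervalIntegral.integral_const_mul]
    unfold I2
    ring
  rw [e]
  have := intervalIntegral.norm_integral_le_of_norm_le_const (a := (0:ℝ)) (b := 1) (C := E)
    (f := fun y => (∫ x in (0:ℝ)..1, lift2 (fun p => f p * g (T^[n] p)) x y) -
      I2 (lift2 g) * ∫ x in (0:ℝ)..1, lift2 f x y) (fun y hy' => by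
      rw [uIoc_of_le (by norm_num)] at hy'
      rw [Real.norm_eq_abs]
      exact key y ⟨hy'.1.le, hy'.2⟩)
  simpa using this

end

end Pool.Agent.Helper53.SM
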