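import Mathlib
import Pool.Agent.Helper53.SM.Torus

set_option autoImplicit false
open MeasureTheory Real Set

namespace Pool.Agent.Helper53.SM

instance instProbU : IsProbabilityMeasure (volume : Measure UnitAddCircle) :=
  ⟨UnitAddCircle.measure_univ⟩

instance instProbT2 : IsProbabilityMeasure (volume : Measure T2) := by
  show IsProbabilityMeasure ((volume : Measure UnitAddCircle).prod volume)
  infer_instance

lemma comp_int {φ : T2 → T2} (hφ : MeasurePreserving φ (volume : Measure T2) volume) {g : T2 → ℝ}
    (hg : Measurable g) : ∫ p, g (φ p) = ∫ p, g p := by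
  have h1 := integral_map (μ := (volume : Measure T2)) hφ.measurable.aemeasurable (f := g)
    hg.aestronglyMeasurable
  rw [hφ.map_eq] at h1
  exact h1.symm

/-- mean ergodic argument -/
theorem erg_bound {T : T2 → T2} (hTc : Continuous T)
    (hTm : MeasurePreserving T (volume : Measure T2) volume)
    {h f : T2 → ℝ} (hh : Measurable h) (hh1 : ∀ p, |h p| ≤ 1) (hinv : h ∘ T =ᵐ[volume] h)
    (hf : Measurable f) (hf1 : ∀ p, |f p| ≤ 1) {N M : ℕ} (hN : 0 < N) {E : ℝ} (hE : 0 ≤ E)
    (hcor : ∀ j, 1 ≤ j → j < N → |(∫ p, f p * f (T^[j * M] p)) - (∫ p, f p) * ∫ p, f p| ≤ E) :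
    ((∫ p, h p * f p) - (∫ p, h p) * ∫ p, f p) ^ 2 ≤ 4 / N + E := by
  set c := ∫ p, f p with hc
  have hc1 : |c| ≤ 1 := by
    have := norm_integral_le_of_norm_le_const (μ := (volume : Measure T2)) (f := f) (C := 1)
      (Filter.Eventually.of_forall (fun p => by rw [Real.norm_eq_abs]; exact hf1 p))
    simpa using this
  set J := (∫ p, h p * f p) - (∫ p, h p) * c with hJ
  have hiter : ∀ k : ℕ, MeasurePreserving (T^[k]) (volume : Measure T2) volume := fun k =>
    hTm.iterate k
  have hinvk : ∀ k : ℕ, h ∘ (T^[k]) =ᵐ[volume] h := by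
    intro k
    induction k with
    | zero => rfl
    | succ k ih =>
      rw [Function.iterate_succ', ← Function.comp_assoc]
      exact ((hiter k).quasiMeasurePreserving.ae_eq_comp hinv).trans ih
  set u : ℕ → T2 → ℝ := fun k p => f (T^[k * M] p) - c with hu
  have hfk : ∀ k, Measurable (fun p => f (T^[k * M] p)) := fun k =>
    hf.comp (hTc.iterate _).measurable
  have hum : ∀ k, Measurable (u k) := fun k => (hfk k).sub measurable_const
  have hu2 : ∀ k p, |u k p| ≤ 2 := by
    intro k p
    have h1 := abs_le.1 (hf1 (T^[k * M] p))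
    have h2 := abs_le.1 hc1
    rw [abs_le]; simp only [hu]
    constructor <;> linarith [h1.1, h1.2, h2.1, h2.2]
  have hhi : Integrable h := integrable_of_bdd hh hh1
  have hhf : Integrable (fun p => h p * f p) := by
    refine integrable_of_bdd (hh.mul hf) (C := 1) ?_
    intro p
    rw [abs_mul]
    calc _ ≤ (1:ℝ) * 1 := mul_le_mul (hh1 _) (hf1 _) (abs_nonneg _) (by norm_num)
      _ = 1 := by norm_num
  have hhu : ∀ k, Integrable (fun p => h p * u k p) := by
    intro k
    refine integrable_of_bdd (hh.mul (hum k)) (C := 2) ?_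
    intro p
    rw [abs_mul]
    calc _ ≤ (1:ℝ) * 2 := mul_le_mul (hh1 _) (hu2 _ _) (abs_nonneg _) (by norm_num)
      _ = 2 := by norm_num
  -- every `∫ h u_k` equals `J`
  have hk : ∀ k, ∫ p, h p * u k p = J := by
    intro k
    have h1 : ∫ p, h p * u k p = ∫ p, (fun q => h q * (f q - c)) (T^[k * M] p) := by
      apply integral_congr_ae
      filter_upwards [hinvk (k * M)] with p hp
      simp only [Function.comp] at hp
      simp only [hu]
      rw [hp]
    rw [h1, comp_int (hiter (k * M)) (g := fun q => h q * (f q - c))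
      (hh.mul (hf.sub measurable_const))]
    have h2 : ∀ q, h q * (f q - c) = h q * f q - c * h q := by intro q; ring
    simp only [h2]
    rw [integral_sub hhf (hhi.const_mul c), integral_const_mul, hJ]
    ring
  set S : T2 → ℝ := fun p => ∑ k ∈ Finset.range N, u k p with hS
  have hSm : Measurable S := Finset.measurable_sum _ (fun k _ => hum k)
  have hSb : ∀ p, |S p| ≤ N * 2 := by
    intro p
    refine (Finset.abs_sum_le_sum_abs _ _).trans ?_
    have := Finset.sum_le_sum (s := Finset.range N) (fun k _ => hu2 k p)
    refine this.trans (le_of_eq ?_)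
    simp
  have hNJ : (N:ℝ) * J = ∫ p, h p * S p := by
    simp only [hS, Finset.mul_sum]
    rw [integral_finsetSum _ (fun k _ => hhu k)]
    simp [hk]
  -- Cauchy-Schwarz on a probability space
  have hSi : Integrable S := integrable_of_bdd hSm hSb
  have hS2i : Integrable (fun p => S p ^ 2) := by
    refine integrable_of_bdd (hSm.pow_const 2) (C := (N * 2) ^ 2) ?_
    intro p
    rw [abs_pow]
    exact pow_le_pow_left₀ (abs_nonneg _) (hSb p) 2
  have hCS : ((N:ℝ) * J) ^ 2 ≤ ∫ p, S p ^ 2 := by
    set m := ∫ p, |S p| with hm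
    have h1 : |(N:ℝ) * J| ≤ m := by
      rw [hNJ, ← Real.norm_eq_abs]
      refine norm_integral_le_of_norm_le hSi.abs ?_
      filter_upwards with p
      rw [Real.norm_eq_abs, abs_mul]
      calc |h p| * |S p| ≤ 1 * |S p| := by gcongr; exact hh1 p
        _ = |S p| := one_mul _
    have h2 : 0 ≤ ∫ p, (|S p| - m) ^ 2 := integral_nonneg (fun p => sq_nonneg _)
    have h3 : ∫ p, (|S p| - m) ^ 2 = (∫ p, S p ^ 2) - m ^ 2 := by
      have e : ∀ p, (|S p| - m) ^ 2 = S p ^ 2 - (2 * m) * |S p| + m ^ 2 := by
        intro p; rw [sub_sq, sq_abs]; ring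
      simp only [e]
      have i1 : Integrable (fun p => S p ^ 2 - (2 * m) * |S p|) :=
        hS2i.sub (hSi.abs.const_mul _)
      rw [integral_add i1 (integrable_const _),
        integral_sub hS2i (hSi.abs.const_mul _), integral_const_mul]
      simp only [integral_const, probReal_univ, smul_eq_mul, one_mul]
      rw [← hm]; ring
    have h4 : ((N:ℝ) * J) ^ 2 ≤ m ^ 2 := by
      rw [← sq_abs]
      exact pow_le_pow_left₀ (abs_nonneg _) h1 2
    linarith
  -- correlations
  have huu : ∀ i j, Integrable (fun p => u i p * u j p) := by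
    intro i j
    refine integrable_of_bdd ((hum i).mul (hum j)) (C := 4) ?_
    intro p
    rw [abs_mul]
    calc _ ≤ (2:ℝ) * 2 := mul_le_mul (hu2 _ _) (hu2 _ _) (abs_nonneg _) (by norm_num)
      _ = 4 := by norm_num
  have hcorr : ∀ i j, i < N → j < N → i ≤ j → ∫ p, u i p * u j p ≤ (if i = j then 4 else 0) + E := by
    intro i j _ hj hij
    rcases hij.eq_or_lt with rfl | hlt
    · rw [if_pos rfl]
      have h1 : ∫ p, u i p * u i p ≤ ∫ _p : T2, (4:ℝ) := by
        apply integral_mono (huu i i) (integrable_const _)
        intro p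
        have h2 := abs_le.1 (hu2 i p)
        simp only
        nlinarith [h2.1, h2.2]
      simp only [integral_const, probReal_univ, smul_eq_mul, one_mul] at h1
      linarith
    · rw [if_neg hlt.ne, zero_add]
      have h1 : ∫ p, u i p * u j p = ∫ p, (fun q => (f q - c) * (f (T^[(j - i) * M] q) - c))
          (T^[i * M] p) := by
        apply integral_congr_ae
        filter_upwards with p
        simp only [hu]
        rw [← Function.iterate_add_apply, ← Nat.add_mul, Nat.sub_add_cancel hlt.le]
      rw [h1, comp_int (hiter (i * M)) (g := fun q => (f q - c) * (f (T^[(j - i) * M] q) - c))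
        ((hf.sub measurable_const).mul ((hfk (j - i)).sub measurable_const))]
      have hff : Integrable (fun q => f q * f (T^[(j - i) * M] q)) := by
        refine integrable_of_bdd (hf.mul (hfk _)) (C := 1) ?_
        intro p
        rw [abs_mul]
        calc _ ≤ (1:ℝ) * 1 := mul_le_mul (hf1 _) (hf1 _) (abs_nonneg _) (by norm_num)
          _ = 1 := by norm_num
      have hfi : Integrable f := integrable_of_bdd hf hf1
      have hfi2 : Integrable (fun q => f (T^[(j - i) * M] q)) :=
        integrable_of_bdd (hfk _) (fun p => hf1 _)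
      have h2 : ∫ q, (f q - c) * (f (T^[(j - i) * M] q) - c) =
          (∫ q, f q * f (T^[(j - i) * M] q)) - c * c := by
        have e : ∀ q, (f q - c) * (f (T^[(j - i) * M] q) - c) =
            f q * f (T^[(j - i) * M] q) - c * f q - c * f (T^[(j - i) * M] q) + c * c := by
          intro q; ring
        simp only [e]
        have i1 : Integrable (fun q => f q * f (T^[(j - i) * M] q) - c * f q) :=
          hff.sub (hfi.const_mul c)
        have i2 : Integrable (fun q => f q * f (T^[(j - i) * M] q) - c * f q -
          c * f (T^[(j - i) * M] q)) := i1.sub (hfi2.const_mul c)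
        rw [integral_add i2 (integrable_const _),
          integral_sub i1 (hfi2.const_mul c),
          integral_sub hff (hfi.const_mul c), integral_const_mul, integral_const_mul,
          comp_int (hiter _) hf]
        simp only [integral_const, probReal_univ, smul_eq_mul, one_mul]
        rw [← hc]; ring
      rw [h2]
      exact (le_abs_self _).trans (hcor (j - i) (by omega) (by omega))
  have hS2 : ∫ p, S p ^ 2 ≤ 4 * N + N ^ 2 * E := by
    have e : ∀ p, S p ^ 2 = ∑ i ∈ Finset.range N, ∑ j ∈ Finset.range N, u i p * u j p := by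
      intro p
      rw [sq, hS, Finset.sum_mul_sum]
    have e' : ∫ p, S p ^ 2 = ∫ p, ∑ i ∈ Finset.range N, ∑ j ∈ Finset.range N, u i p * u j p := by
      congr 1; funext p; exact e p
    rw [e', integral_finsetSum _ (fun i _ => integrable_finsetSum _ (fun j _ => huu i j))]
    have h1 : ∀ i ∈ Finset.range N, ∫ p, ∑ j ∈ Finset.range N, u i p * u j p ≤
        ∑ j ∈ Finset.range N, ((if i = j then 4 else 0) + E) := by
      intro i hi
      rw [integral_finsetSum _ (fun j _ => huu i j)]
      apply Finset.sum_le_sum
      intro j hj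
      rw [Finset.mem_range] at hi hj
      rcases le_total i j with h | h
      · exact hcorr i j hi hj h
      · have := hcorr j i hj hi h
        have e2 : ∫ p, u i p * u j p = ∫ p, u j p * u i p := by
          congr 1; funext p; ring
        rw [e2]
        refine this.trans (le_of_eq ?_)
        congr 1
        by_cases hh : i = j
        · rw [if_pos hh, if_pos hh.symm]
        · rw [if_neg hh, if_neg (Ne.symm hh)]
    refine (Finset.sum_le_sum h1).trans (le_of_eq ?_)
    simp only [Finset.sum_add_distrib, Finset.sum_ite_eq, Finset.sum_const, Finset.card_range,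
      nsmul_eq_mul]
    have h2 : ∑ i ∈ Finset.range N, (if i ∈ Finset.range N then (4:ℝ) else 0) = N * 4 := by
      rw [Finset.sum_congr rfl (g := fun _ => (4:ℝ))]
      · simp
      · intro i hi; rw [if_pos hi]
    rw [h2]; ring
  have hNpos : (0:ℝ) < N := by exact_mod_cast hN
  have h5 : (N:ℝ) ^ 2 * J ^ 2 ≤ 4 * N + N ^ 2 * E := by
    have := hCS.trans hS2
    rwa [mul_pow] at this
  have h6 : (N:ℝ) ^ 2 * (4 / N + E) = 4 * N + N ^ 2 * E := by
    field_simp
  rw [← h6] at h5
  exact le_of_mul_le_mul_left h5 (by positivity)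

end Pool.Agent.Helper53.SM
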