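import Mathlib
import Pool.Agent.Helper53.SM.Erg

set_option autoImplicit false
open MeasureTheory Real Set

namespace Pool.Agent.Helper53.SM

/-- mean ergodic argument for eigenfunctions of the Koopman operator -/
theorem eig_bound {T : T2 → T2} (hTc : Continuous T)
    (hTm : MeasurePreserving T (volume : Measure T2) volume) {ξ : ℂ} (hξ : ‖ξ‖ = 1)
    {h : T2 → ℂ} {f : T2 → ℝ} (hh : Measurable h) (hh1 : ∀ p, ‖h p‖ ≤ 1)
    (hinv : h ∘ T =ᵐ[volume] fun p => ξ * h p)
    (hf : Measurable f) (hf1 : ∀ p, |f p| ≤ 1) {N M : ℕ} (hN : 0 < N) {E : ℝ} (hE : 0 ≤ E)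
    (hcor : ∀ j, 1 ≤ j → j < N → |(∫ p, f p * f (T^[j * M] p)) - (∫ p, f p) * ∫ p, f p| ≤ E) :
    ‖(∫ p, h p * (f p : ℂ)) - (∫ p, h p) * ((∫ p, f p : ℝ) : ℂ)‖ ^ 2 ≤ 4 / N + E := by
  set c := ∫ p, f p with hc
  have hc1 : |c| ≤ 1 := by
    have := norm_integral_le_of_norm_le_const (μ := (volume : Measure T2)) (f := f) (C := 1)
      (Filter.Eventually.of_forall (fun p => by rw [Real.norm_eq_abs]; exact hf1 p))
    simpa using this
  have hiter : ∀ k : ℕ, MeasurePreserving (T^[k]) (volume : Measure T2) volume := fun k =>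
    hTm.iterate k
  have hinvk : ∀ k : ℕ, h ∘ (T^[k]) =ᵐ[volume] fun p => ξ ^ k * h p := by
    intro k
    induction k with
    | zero => simp
    | succ k ih =>
      rw [Function.iterate_succ', ← Function.comp_assoc]
      have h1 := (hiter k).quasiMeasurePreserving.ae_eq_comp hinv
      refine h1.trans ?_
      filter_upwards [ih] with p hp
      simp only [Function.comp] at hp ⊢
      rw [hp, pow_succ]; ring
  set J : ℂ := (∫ p, h p * (f p : ℂ)) - (∫ p, h p) * (c : ℂ) with hJ
  have hcompC : ∀ (k : ℕ) {g : T2 → ℂ}, Measurable g → ∫ p, g (T^[k] p) = ∫ p, g p := by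
    intro k g hg
    have h1 := integral_map (μ := (volume : Measure T2)) (hiter k).measurable.aemeasurable (f := g)
      hg.aestronglyMeasurable
    rw [(hiter k).map_eq] at h1
    exact h1.symm
  -- integral of `h`
  have hint0 : ∀ k : ℕ, ξ ^ k * ∫ p, h p = ∫ p, h p := by
    intro k
    have h1 : ∫ p, h (T^[k] p) = ∫ p, ξ ^ k * h p := integral_congr_ae (hinvk k)
    rw [hcompC k hh, integral_const_mul] at h1
    exact h1.symm
  set u : ℕ → T2 → ℝ := fun k p => f (T^[k * M] p) - c with hu
  have hfk : ∀ k, Measurable (fun p => f (T^[k * M] p)) := fun k =>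
    hf.comp (hTc.iterate _).measurable
  have hum : ∀ k, Measurable (u k) := fun k => (hfk k).sub measurable_const
  have hu2 : ∀ k p, |u k p| ≤ 2 := by
    intro k p
    have h1 := abs_le.1 (hf1 (T^[k * M] p))
    have h2 := abs_le.1 hc1
    rw [abs_le]; simp only [hu]
    constructor <;> linarith [h1.1, h1.2, h2.1, h2.2]
  have hintC : ∀ {g : T2 → ℂ} {C : ℝ}, Measurable g → (∀ p, ‖g p‖ ≤ C) → Integrable g := by
    intro g C hg hgC
    exact Integrable.of_bound hg.aestronglyMeasurable C (Filter.Eventually.of_forall hgC)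
  have hhi : Integrable h := hintC hh hh1
  have hofR : ∀ {g : T2 → ℝ}, Measurable g → Measurable (fun p => (g p : ℂ)) := fun hg =>
    Complex.measurable_ofReal.comp hg
  have hhf : Integrable (fun p => h p * (f p : ℂ)) := by
    refine hintC (hh.mul (hofR hf)) (C := 1) ?_
    intro p
    rw [norm_mul, Complex.norm_real, Real.norm_eq_abs]
    calc _ ≤ (1:ℝ) * 1 := mul_le_mul (hh1 _) (hf1 _) (abs_nonneg _) (by norm_num)
      _ = 1 := by norm_num
  have hhu : ∀ k, Integrable (fun p => h p * (u k p : ℂ)) := by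
    intro k
    refine hintC (hh.mul (hofR (hum k))) (C := 2) ?_
    intro p
    rw [norm_mul, Complex.norm_real, Real.norm_eq_abs]
    calc _ ≤ (1:ℝ) * 2 := mul_le_mul (hh1 _) (hu2 _ _) (abs_nonneg _) (by norm_num)
      _ = 2 := by norm_num
  -- every `ξ^(kM) ∫ h u_k` equals `J`
  have hk : ∀ k, ξ ^ (k * M) * ∫ p, h p * (u k p : ℂ) = J := by
    intro k
    have h1 : ∫ p, ξ ^ (k * M) * (h p * (u k p : ℂ)) =
        ∫ p, (fun q => h q * ((f q - c : ℝ) : ℂ)) (T^[k * M] p) := by
      apply integral_congr_ae
      filter_upwards [hinvk (k * M)] with p hp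
      simp only [Function.comp] at hp
      simp only [hu]
      rw [hp]; ring
    rw [← integral_const_mul, h1, hcompC (k * M) (g := fun q => h q * ((f q - c : ℝ) : ℂ))
      (hh.mul (hofR (hf.sub measurable_const)))]
    have h2 : ∀ q, h q * ((f q - c : ℝ) : ℂ) = h q * (f q : ℂ) - (c : ℂ) * h q := by
      intro q; push_cast; ring
    simp only [h2]
    rw [integral_sub hhf (hhi.const_mul _), integral_const_mul, hJ]
    ring
  set z : ℕ → ℂ := fun k => ξ ^ (k * M) with hz
  have hz1 : ∀ k, ‖z k‖ = 1 := by
    intro k; simp only [hz, norm_pow, hξ, one_pow]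
  set S1 : T2 → ℝ := fun p => ∑ k ∈ Finset.range N, (z k).re * u k p with hS1
  set S2 : T2 → ℝ := fun p => ∑ k ∈ Finset.range N, (z k).im * u k p with hS2
  set S : T2 → ℂ := fun p => ∑ k ∈ Finset.range N, z k * (u k p : ℂ) with hS
  have hSre : ∀ p, (S p).re = S1 p := by
    intro p
    simp only [hS, hS1, Complex.re_sum]
    apply Finset.sum_congr rfl
    intro k _
    simp
  have hSim : ∀ p, (S p).im = S2 p := by
    intro p
    simp only [hS, hS2, Complex.im_sum]
    apply Finset.sum_congr rfl
    intro k _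
    simp
  have hS1m : Measurable S1 := Finset.measurable_sum _ (fun k _ => (hum k).const_mul _)
  have hS2m : Measurable S2 := Finset.measurable_sum _ (fun k _ => (hum k).const_mul _)
  have hSm : Measurable S := Finset.measurable_sum _ (fun k _ => (hofR (hum k)).const_mul _)
  have hSb : ∀ p, ‖S p‖ ≤ N * 2 := by
    intro p
    refine (norm_sum_le _ _).trans ?_
    have h1 : ∀ k ∈ Finset.range N, ‖z k * (u k p : ℂ)‖ ≤ 2 := by
      intro k _
      rw [norm_mul, hz1, one_mul, Complex.norm_real, Real.norm_eq_abs]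
      exact hu2 k p
    refine (Finset.sum_le_sum h1).trans (le_of_eq ?_)
    simp
  have hNJ : (N:ℂ) * J = ∫ p, h p * S p := by
    have h1 : ∀ p, h p * S p = ∑ k ∈ Finset.range N, z k * (h p * (u k p : ℂ)) := by
      intro p
      simp only [hS, Finset.mul_sum]
      apply Finset.sum_congr rfl
      intro k _
      ring
    simp only [h1]
    rw [integral_finsetSum _ (fun k _ => (hhu k).const_mul _)]
    simp only [integral_const_mul, hz, hk]
    simp
  have hSi : Integrable S := hintC hSm hSb
  have hSn : Integrable (fun p => ‖S p‖) := hSi.norm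
  have hS2i : Integrable (fun p => ‖S p‖ ^ 2) := by
    refine integrable_of_bdd (hSm.norm.pow_const 2) (C := (N * 2) ^ 2) ?_
    intro p
    rw [abs_pow, abs_norm]
    exact pow_le_pow_left₀ (norm_nonneg _) (hSb p) 2
  have hCS : ((N:ℝ) * ‖J‖) ^ 2 ≤ ∫ p, ‖S p‖ ^ 2 := by
    set m := ∫ p, ‖S p‖ with hm
    have h1 : (N:ℝ) * ‖J‖ ≤ m := by
      have e : (N:ℝ) * ‖J‖ = ‖(N:ℂ) * J‖ := by rw [norm_mul, Complex.norm_natCast]
      rw [e, hNJ]
      refine norm_integral_le_of_norm_le hSn ?_
      filter_upwards with p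
      rw [norm_mul]
      calc ‖h p‖ * ‖S p‖ ≤ 1 * ‖S p‖ := by gcongr; exact hh1 p
        _ = ‖S p‖ := one_mul _
    have h2 : 0 ≤ ∫ p, (‖S p‖ - m) ^ 2 := integral_nonneg (fun p => sq_nonneg _)
    have h3 : ∫ p, (‖S p‖ - m) ^ 2 = (∫ p, ‖S p‖ ^ 2) - m ^ 2 := by
      have e : ∀ p, (‖S p‖ - m) ^ 2 = ‖S p‖ ^ 2 - (2 * m) * ‖S p‖ + m ^ 2 := by
        intro p; ring
      simp only [e]
      have i1 : Integrable (fun p => ‖S p‖ ^ 2 - (2 * m) * ‖S p‖) :=
        hS2i.sub (hSn.const_mul _)
      rw [integral_add i1 (integrable_const _),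
        integral_sub hS2i (hSn.const_mul _), integral_const_mul]
      simp only [integral_const, probReal_univ, smul_eq_mul, one_mul]
      rw [← hm]; ring
    have h4 : ((N:ℝ) * ‖J‖) ^ 2 ≤ m ^ 2 := pow_le_pow_left₀ (by positivity) h1 2
    linarith
  -- correlations
  have huu : ∀ i j, Integrable (fun p => u i p * u j p) := by
    intro i j
    refine integrable_of_bdd ((hum i).mul (hum j)) (C := 4) ?_
    intro p
    rw [abs_mul]
    calc _ ≤ (2:ℝ) * 2 := mul_le_mul (hu2 _ _) (hu2 _ _) (abs_nonneg _) (by norm_num)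
      _ = 4 := by norm_num
  have hcorr : ∀ i j, i < N → j < N → i ≤ j → |∫ p, u i p * u j p| ≤ (if i = j then 4 else 0) + E := by
    intro i j _ hj hij
    rcases hij.eq_or_lt with rfl | hlt
    · rw [if_pos rfl]
      have h1 := norm_integral_le_of_norm_le_const (μ := (volume : Measure T2))
        (f := fun p => u i p * u i p) (C := 4) (Filter.Eventually.of_forall (fun p => by
          rw [Real.norm_eq_abs, abs_mul]
          calc _ ≤ (2:ℝ) * 2 := mul_le_mul (hu2 _ _) (hu2 _ _) (abs_nonneg _) (by norm_num)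
            _ = 4 := by norm_num))
      simp only [probReal_univ, mul_one, Real.norm_eq_abs] at h1
      linarith
    · rw [if_neg hlt.ne, zero_add]
      have h1 : ∫ p, u i p * u j p = ∫ p, (fun q => (f q - c) * (f (T^[(j - i) * M] q) - c))
          (T^[i * M] p) := by
        apply integral_congr_ae
        filter_upwards with p
        simp only [hu]
        rw [← Function.iterate_add_apply, ← Nat.add_mul, Nat.sub_add_cancel hlt.le]
      rw [h1, comp_int (hiter (i * M)) (g := fun q => (f q - c) * (f (T^[(j - i) * M] q) - c))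
        ((hf.sub measurable_const).mul ((hfk (j - i)).sub measurable_const))]
      have hff : Integrable (fun q => f q * f (T^[(j - i) * M] q)) := by
        refine integrable_of_bdd (hf.mul (hfk _)) (C := 1) ?_
        intro p
        rw [abs_mul]
        calc _ ≤ (1:ℝ) * 1 := mul_le_mul (hf1 _) (hf1 _) (abs_nonneg _) (by norm_num)
          _ = 1 := by norm_num
      have hfi : Integrable f := integrable_of_bdd hf hf1
      have hfi2 : Integrable (fun q => f (T^[(j - i) * M] q)) :=
        integrable_of_bdd (hfk _) (fun p => hf1 _)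
      have h2 : ∫ q, (f q - c) * (f (T^[(j - i) * M] q) - c) =
          (∫ q, f q * f (T^[(j - i) * M] q)) - c * c := by
        have e : ∀ q, (f q - c) * (f (T^[(j - i) * M] q) - c) =
            f q * f (T^[(j - i) * M] q) - c * f q - c * f (T^[(j - i) * M] q) + c * c := by
          intro q; ring
        simp only [e]
        have i1 : Integrable (fun q => f q * f (T^[(j - i) * M] q) - c * f q) :=
          hff.sub (hfi.const_mul c)
        have i2 : Integrable (fun q => f q * f (T^[(j - i) * M] q) - c * f q -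
          c * f (T^[(j - i) * M] q)) := i1.sub (hfi2.const_mul c)
        rw [integral_add i2 (integrable_const _),
          integral_sub i1 (hfi2.const_mul c),
          integral_sub hff (hfi.const_mul c), integral_const_mul, integral_const_mul,
          comp_int (hiter _) hf]
        simp only [integral_const, probReal_univ, smul_eq_mul, one_mul]
        rw [← hc]; ring
      rw [h2]
      exact hcor (j - i) (by omega) (by omega)
  have hcorr' : ∀ i j, i < N → j < N → |∫ p, u i p * u j p| ≤ (if i = j then 4 else 0) + E := by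
    intro i j hi hj
    rcases le_total i j with h | h
    · exact hcorr i j hi hj h
    · have := hcorr j i hj hi h
      have e2 : ∫ p, u i p * u j p = ∫ p, u j p * u i p := by
        congr 1; funext p; ring
      rw [e2]
      refine this.trans (le_of_eq ?_)
      congr 1
      by_cases hh : i = j
      · rw [if_pos hh, if_pos hh.symm]
      · rw [if_neg hh, if_neg (Ne.symm hh)]
  have hS2 : ∫ p, ‖S p‖ ^ 2 ≤ 4 * N + N ^ 2 * E := by
    have e : ∀ p, ‖S p‖ ^ 2 = ∑ i ∈ Finset.range N, ∑ j ∈ Finset.range N,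
        ((z i).re * (z j).re + (z i).im * (z j).im) * (u i p * u j p) := by
      intro p
      rw [← Complex.normSq_eq_norm_sq, Complex.normSq_apply, hSre, hSim]
      simp only [hS1, hS2]
      rw [Finset.sum_mul_sum, Finset.sum_mul_sum, ← Finset.sum_add_distrib]
      apply Finset.sum_congr rfl
      intro i _
      rw [← Finset.sum_add_distrib]
      apply Finset.sum_congr rfl
      intro j _
      ring
    have e' : ∫ p, ‖S p‖ ^ 2 = ∫ p, ∑ i ∈ Finset.range N, ∑ j ∈ Finset.range N,
        ((z i).re * (z j).re + (z i).im * (z j).im) * (u i p * u j p) := by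
      congr 1; funext p; exact e p
    rw [e', integral_finsetSum _ (fun i _ => integrable_finsetSum _ (fun j _ => (huu i j).const_mul _))]
    have h1 : ∀ i ∈ Finset.range N, ∫ p, ∑ j ∈ Finset.range N,
        ((z i).re * (z j).re + (z i).im * (z j).im) * (u i p * u j p) ≤
        ∑ j ∈ Finset.range N, ((if i = j then 4 else 0) + E) := by
      intro i hi
      rw [integral_finsetSum _ (fun j _ => (huu i j).const_mul _)]
      apply Finset.sum_le_sum
      intro j hj
      rw [Finset.mem_range] at hi hj
      rw [integral_const_mul]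
      refine (le_abs_self _).trans ?_
      rw [abs_mul]
      have h3 : |(z i).re * (z j).re + (z i).im * (z j).im| ≤ 1 := by
        have hi1 : (z i).re ^ 2 + (z i).im ^ 2 = 1 := by
          have := hz1 i
          rw [← Complex.sq_norm_sub_sq_re] 
          rw [this]; ring
        have hj1 : (z j).re ^ 2 + (z j).im ^ 2 = 1 := by
          have := hz1 j
          rw [← Complex.sq_norm_sub_sq_re]
          rw [this]; ring
        rw [abs_le]
        constructor
        · nlinarith [sq_nonneg ((z i).re + (z j).re), sq_nonneg ((z i).im + (z j).im)]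
        · nlinarith [sq_nonneg ((z i).re - (z j).re), sq_nonneg ((z i).im - (z j).im)]
      have h4 := hcorr' i j hi hj
      calc _ ≤ 1 * |∫ p, u i p * u j p| := by gcongr
        _ ≤ _ := by rw [one_mul]; exact h4
    refine (Finset.sum_le_sum h1).trans (le_of_eq ?_)
    simp only [Finset.sum_add_distrib, Finset.sum_ite_eq, Finset.sum_const, Finset.card_range,
      nsmul_eq_mul]
    have h2 : ∑ i ∈ Finset.range N, (if i ∈ Finset.range N then (4:ℝ) else 0) = N * 4 := by
      rw [Finset.sum_congr rfl (g := fun _ => (4:ℝ))]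
      · simp
      · intro i hi; rw [if_pos hi]
    rw [h2]; ring
  have hNpos : (0:ℝ) < N := by exact_mod_cast hN
  have h5 : (N:ℝ) ^ 2 * ‖J‖ ^ 2 ≤ 4 * N + N ^ 2 * E := by
    have := hCS.trans hS2
    rwa [mul_pow] at this
  have h6 : (N:ℝ) ^ 2 * (4 / N + E) = 4 * N + N ^ 2 * E := by
    field_simp
  rw [← h6] at h5
  exact le_of_mul_le_mul_left h5 (by positivity)

end Pool.Agent.Helper53.SM
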