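import Mathlib
import Pool.Agent.Helper53.SM.Final
import Pool.Agent.Helper53.SM.ErgC

set_option autoImplicit false
open MeasureTheory Real Set

namespace Pool.Agent.Helper53.SM

theorem scale_eig_h {α : ℝ} (hα : 0 < α) (hα3 : α < 1 / 3) {k : ℕ} (hk : (1 / 3 - α) / 2 ≤ k * α)
    {a : ℝ} (ha : 5 ≤ |a|) {T : T2 → T2} (hT : IsStd a T) {ξ : ℂ} (hξ : ‖ξ‖ = 1)
    {h : T2 → ℂ} {f : T2 → ℝ} (hh : Measurable h)
    (hh1 : ∀ p, ‖h p‖ ≤ 1) (hinv : h ∘ T =ᵐ[volume] fun p => ξ * h p) (hf1 : ∀ p, |f p| ≤ 1)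
    (hfL : ∀ p q, |f p - f q| ≤ Real.exp (|a| ^ α) * dist p q) :
    ‖(∫ p, h p * (f p : ℂ)) - (∫ p, h p) * ((∫ p, f p : ℝ) : ℂ)‖ ^ 2 ≤
      (1804 + 2 * (k.factorial : ℝ)) * |a| ^ (-((1 / 3 - α) / 2)) := by
  set A := |a| with hA
  set β := (1 / 3 - α) / 2 with hβ
  have hA0 : 0 < A := by linarith
  have hA1 : 1 ≤ A := by linarith
  have hβ0 : 0 < β := by rw [hβ]; linarith
  obtain ⟨h1, h2, h4⟩ := cbrt_props (a := a) (by linarith)
  rw [← hA] at h1 h2 h4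
  set q := A ^ ((1:ℝ) / 3) with hq
  have hq0 : 0 < q := by linarith
  have hfc : Continuous f := by
    refine LipschitzWith.continuous (K := (Real.exp (A ^ α)).toNNReal)
      (LipschitzWith.of_dist_le_mul ?_)
    intro p q
    rw [Real.dist_eq, Real.coe_toNNReal _ (Real.exp_pos _).le]
    exact hfL p q
  set N : ℕ := ⌈A ^ β⌉₊ with hN
  set m : ℕ := ⌈2 * A ^ α⌉₊ with hm
  have hAβ1 : 1 ≤ A ^ β := Real.one_le_rpow hA1 hβ0.le
  have hAα1 : 1 ≤ A ^ α := Real.one_le_rpow hA1 hα.le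
  have hNpos : 0 < N := Nat.ceil_pos.2 (by linarith)
  have hN1 : A ^ β ≤ N := Nat.le_ceil _
  have hN2 : (N:ℝ) ≤ 2 * A ^ β := by
    have := Nat.ceil_lt_add_one (by linarith : 0 ≤ A ^ β)
    rw [← hN] at this
    linarith
  have hm1 : 2 * A ^ α ≤ m := Nat.le_ceil _
  have hm2 : (m:ℝ) ≤ 3 * A ^ α := by
    have := Nat.ceil_lt_add_one (by linarith : 0 ≤ 2 * A ^ α)
    rw [← hm] at this
    linarith
  -- the correlation bound
  set E : ℝ := (N:ℝ) * (2 * m) * (150 / q) + 2 * Real.exp (A ^ α) * Real.exp (-(2 * A ^ α)) with hE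
  have hE0 : 0 ≤ E := by positivity
  have hqe : Real.exp 1 ≤ q ^ 2 := by
    have h5 : (5:ℝ) ≤ q ^ 3 := by rw [h2]; exact ha
    have h6 : (1.7:ℝ) ≤ q := by
      by_contra hlt
      push Not at hlt
      have : q ^ 3 ≤ 1.7 ^ 3 := pow_le_pow_left₀ hq0.le hlt.le 3
      norm_num at this
      linarith
    have h7 : (1.7:ℝ) ^ 2 ≤ q ^ 2 := pow_le_pow_left₀ (by norm_num) h6 2
    have := Real.exp_one_lt_d9
    norm_num at h7
    linarith
  have hpow : ∀ j : ℕ, m ≤ j → (1 / q ^ 2) ^ j ≤ Real.exp (-(2 * A ^ α)) := by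
    intro j hj
    have e1 : (1 / q ^ 2) ≤ Real.exp (-1) := by
      rw [Real.exp_neg, one_div]
      exact inv_anti₀ (Real.exp_pos _) hqe
    calc (1 / q ^ 2) ^ j ≤ (Real.exp (-1)) ^ j := pow_le_pow_left₀ (by positivity) e1 j
      _ = Real.exp (-(j:ℝ)) := by rw [← Real.exp_nat_mul]; ring_nf
      _ ≤ Real.exp (-(2 * A ^ α)) := by
          apply Real.exp_le_exp.2
          have : (m:ℝ) ≤ j := by exact_mod_cast hj
          linarith
  have hcor : ∀ j, 1 ≤ j → j < N →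
      |(∫ p, f p * f (T^[j * (2 * m)] p)) - (∫ p, f p) * ∫ p, f p| ≤ E := by
    intro j hj1 hjN
    have h5 := mixing_q h1 (h2.trans hA) hT hf1 hf1 (Real.exp_pos _).le hfL hfL (j * (2 * m)) h4
    refine h5.trans ?_
    rw [hE]
    have h6 : j * (2 * m) / 2 = j * m := by
      rw [show j * (2 * m) = j * m * 2 by ring, Nat.mul_div_cancel _ (by norm_num)]
    rw [h6]
    have h7 := hpow (j * m) (Nat.le_mul_of_pos_left m hj1)
    have h8 : (j:ℝ) ≤ N := by exact_mod_cast hjN.le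
    have h9 : (((j * (2 * m) : ℕ)) : ℝ) = (j:ℝ) * (2 * m) := by push_cast; ring
    rw [h9]
    gcongr
  have hmain := eig_bound hT.continuous hT.measurePreserving hξ hh hh1 hinv hfc.measurable hf1
    hNpos hE0 hcor
  refine hmain.trans ?_
  -- numerical estimates
  have hAβ : A ^ (-β) = 1 / A ^ β := by rw [Real.rpow_neg hA0.le, one_div]
  have t1 : 4 / (N:ℝ) ≤ 4 * A ^ (-β) := by
    rw [hAβ]
    calc 4 / (N:ℝ) ≤ 4 / A ^ β := by gcongr
      _ = _ := by ring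
  have t2 : (N:ℝ) * (2 * m) * (150 / q) ≤ 1800 * A ^ (-β) := by
    have e : A ^ (-β) = A ^ β * A ^ α * (1 / q) := by
      rw [hq, one_div, ← Real.rpow_neg hA0.le, ← Real.rpow_add hA0, ← Real.rpow_add hA0]
      congr 1
      rw [hβ]; ring
    rw [e]
    calc (N:ℝ) * (2 * m) * (150 / q) ≤ (2 * A ^ β) * (2 * (3 * A ^ α)) * (150 / q) := by gcongr
      _ = 1800 * (A ^ β * A ^ α * (1 / q)) := by ring
  have t3 : 2 * Real.exp (A ^ α) * Real.exp (-(2 * A ^ α)) ≤ 2 * (k.factorial : ℝ) * A ^ (-β) := by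
    have e : Real.exp (A ^ α) * Real.exp (-(2 * A ^ α)) = Real.exp (-(A ^ α)) := by
      rw [← Real.exp_add]; ring_nf
    have h5 := Real.pow_div_factorial_le_exp (A ^ α) (by linarith) k
    have h6 : A ^ β ≤ (A ^ α) ^ k := by
      rw [← Real.rpow_natCast, ← Real.rpow_mul hA0.le]
      apply Real.rpow_le_rpow_of_exponent_le hA1
      rw [mul_comm]; exact hk
    have h7 : Real.exp (-(A ^ α)) ≤ (k.factorial : ℝ) * A ^ (-β) := by
      rw [Real.exp_neg, hAβ, mul_one_div, inv_eq_one_div, div_le_div_iff₀ (Real.exp_pos _)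
        (by positivity), one_mul]
      have h8 : 0 < (k.factorial : ℝ) := by exact_mod_cast k.factorial_pos
      rw [div_le_iff₀ h8] at h5
      calc A ^ β ≤ (A ^ α) ^ k := h6
        _ ≤ _ := h5
        _ = _ := by ring
    rw [mul_assoc, e]
    linarith
  rw [hE]
  have : (1804 + 2 * (k.factorial : ℝ)) * A ^ (-β) = 4 * A ^ (-β) + (1800 * A ^ (-β) +
    2 * (k.factorial : ℝ) * A ^ (-β)) := by ring
  rw [this]
  linarith

end Pool.Agent.Helper53.SM
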